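import Mathlib
import Pool.Agent.Lib.MP_5bc52d_co.Key.ClassThm

/-!
# Values on words with letters in an arbitrary commutative ring
-/

open Finset Polynomial

set_option linter.unusedSectionVars false

namespace Pool.Agent.Lib.MP_5bc52d_co.Key

open Splitting Cyc Cut

section words
variable {P : Type*} [Fintype P] [DecidableEq P] {A : Type*} [CommRing A]
  {B : Type*} [CommRing B]

/-- the value on a word, given as a list of letters -/
noncomputable def evL (cc : A →+* B) (F : Bool → A →+* A[X]) : List (Bool × B) → A →+* B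
  | [] => cc
  | q :: l => (Polynomial.eval₂RingHom (evL cc F l)
      ((if q.1 = true then 1 else -1) * q.2)).comp (F q.1)

/-- the weighted number of ways to place `U` on a word -/
noncomputable def NL (r : P → P → Prop) (v : Bool → P → ℤ) :
    List (Bool × B) → Finset P → B
  | [], U => if U = ∅ then 1 else 0
  | q :: l, U => ∑ I ∈ wks r (v q.1) U, q.2 ^ I.card * NL r v l (U \ I)

theorem evL_Gam {cc : A →+* B} {F : Bool → A →+* A[X]} {Γ : Finset P → A} {s : Bool → A}
    {r : P → P → Prop} {v : Bool → P → ℤ} (hs1 : s true = 1) (hs2 : s false = -1)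
    (hcc : ∀ U, cc (Γ U) = if U = ∅ then 1 else 0)
    (hF : ∀ c, PeelE Γ (s c) r (v c) (F c)) (l : List (Bool × B)) :
    ∀ U : Finset P, evL cc F l (Γ U) = NL r v l U := by
  induction l with
  | nil =>
    intro U
    exact hcc U
  | cons q l ih =>
    intro U
    change (Polynomial.eval₂RingHom (evL cc F l)
      ((if q.1 = true then 1 else -1) * q.2)) (F q.1 (Γ U)) = _
    rw [hF q.1 U, map_sum, NL]
    apply Finset.sum_congr rfl
    intro I _
    rw [coe_eval₂RingHom, eval₂_mul, eval₂_C, eval₂_pow, eval₂_X, map_mul, map_pow, ih]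
    have h1 : (evL cc F l) (s q.1) = if q.1 = true then 1 else -1 := by
      rcases q with ⟨c, z⟩
      cases c
      · simp [hs2]
      · simp [hs1]
    rw [h1]
    have h2 : ((if q.1 = true then 1 else -1 : B)) * (if q.1 = true then 1 else -1 : B) = 1 := by
      split_ifs <;> ring
    calc ((if q.1 = true then 1 else -1 : B)) ^ I.card * NL r v l (U \ I) *
          ((if q.1 = true then 1 else -1 : B) * q.2) ^ I.card
        = (((if q.1 = true then 1 else -1 : B)) * (if q.1 = true then 1 else -1 : B)) ^ I.card *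
          (q.2 ^ I.card * NL r v l (U \ I)) := by rw [mul_pow, mul_pow]; ring
      _ = q.2 ^ I.card * NL r v l (U \ I) := by rw [h2, one_pow, one_mul]

theorem wks_empty {r : P → P → Prop} {w : P → ℤ} : wks r w (∅ : Finset P) = {∅} := by
  ext I
  rw [mem_wks, Finset.mem_singleton]
  constructor
  · exact fun h => Finset.subset_empty.mp h.1
  · rintro rfl
    exact ⟨Finset.Subset.refl _, fun a ha => absurd ha (Finset.notMem_empty a)⟩

theorem wks_single {r : P → P → Prop} (hi : ∀ x, ¬ r x x) {w : P → ℤ} (x : P) :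
    wks r w ({x} : Finset P) = {∅, {x}} := by
  ext I
  rw [mem_wks, Finset.mem_insert, Finset.mem_singleton]
  constructor
  · intro h
    exact Finset.subset_singleton_iff.mp h.1
  · rintro (rfl | rfl)
    · exact ⟨Finset.empty_subset _, fun a _ b hb => absurd hb (Finset.notMem_empty b)⟩
    · refine ⟨Finset.Subset.refl _, fun a ha b hb hab => ?_⟩
      rw [Finset.mem_singleton] at ha hb
      exact absurd hab (by rw [ha, hb]; exact hi x)

theorem NL_empty {r : P → P → Prop} {v : Bool → P → ℤ} (l : List (Bool × B)) :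
    NL r v l (∅ : Finset P) = 1 := by
  induction l with
  | nil => rw [NL, if_pos rfl]
  | cons q l ih =>
    rw [NL, wks_empty, Finset.sum_singleton, Finset.sdiff_empty, ih, Finset.card_empty,
      pow_zero, one_mul]

theorem NL_one {r : P → P → Prop} {v : Bool → P → ℤ} (hi : ∀ x, ¬ r x x) (x : P)
    (l : List (Bool × B)) : NL r v l {x} = (l.map Prod.snd).sum := by
  induction l with
  | nil => rw [NL, if_neg (Finset.singleton_ne_empty x)]; rfl
  | cons q l ih =>
    rw [NL, wks_single hi, Finset.sum_pair (Finset.singleton_ne_empty x).symm,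
      Finset.sdiff_empty, ih, Finset.sdiff_self, NL_empty, Finset.card_empty, pow_zero, one_mul,
      Finset.card_singleton, pow_one, mul_one, List.map_cons, List.sum_cons, add_comm]

/-- a multiple of the function of a point vanishes on the words of total value zero -/
theorem NL_zero {cc : A →+* B} {F : Bool → A →+* A[X]} {Γ : Finset P → A} {s : Bool → A}
    {r : P → P → Prop} {v : Bool → P → ℤ} (hi : ∀ x, ¬ r x x)
    (hs1 : s true = 1) (hs2 : s false = -1)
    (hcc : ∀ U, cc (Γ U) = if U = ∅ then 1 else 0)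
    (hF : ∀ c, PeelE Γ (s c) r (v c) (F c)) {x : P} {U : Finset P} (hd : Γ {x} ∣ Γ U)
    {l : List (Bool × B)} (hl : (l.map Prod.snd).sum = 0) : NL r v l U = 0 := by
  obtain ⟨G, hG⟩ := hd
  rw [← evL_Gam hs1 hs2 hcc hF, hG, map_mul, evL_Gam hs1 hs2 hcc hF, NL_one hi, hl, zero_mul]

/-! ### cutting a word -/

open Classical in
/-- the initial parts of `U` -/
noncomputable def dn (r : P → P → Prop) (U : Finset P) : Finset (Finset P) :=
  U.powerset.filter (fun I => ∀ a ∈ U, ∀ b ∈ I, r a b → a ∈ I)

theorem mem_dn {r : P → P → Prop} {U I : Finset P} :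
    I ∈ dn r U ↔ I ⊆ U ∧ ∀ a ∈ U, ∀ b ∈ I, r a b → a ∈ I := by
  classical
  rw [dn, Finset.mem_filter, Finset.mem_powerset]

theorem NL_append {r : P → P → Prop} {v : Bool → P → ℤ} (l₁ l₂ : List (Bool × B)) :
    ∀ U : Finset P, NL r v (l₁ ++ l₂) U = ∑ I ∈ dn r U, NL r v l₁ I * NL r v l₂ (U \ I) := by
  induction l₁ with
  | nil =>
    intro U
    rw [Finset.sum_eq_single ∅]
    · rw [NL_empty, one_mul, Finset.sdiff_empty, List.nil_append]
    · intro I _ hne
      rw [NL, if_neg hne, zero_mul]
    · intro h
      exact absurd (mem_dn.mpr ⟨Finset.empty_subset _,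
        fun a _ b hb => absurd hb (Finset.notMem_empty b)⟩) h
  | cons q l ih =>
    intro U
    rw [List.cons_append, NL]
    have h1 : ∀ I ∈ wks r (v q.1) U, q.2 ^ I.card * NL r v (l ++ l₂) (U \ I) =
        ∑ J ∈ dn r (U \ I), q.2 ^ I.card * (NL r v l J * NL r v l₂ ((U \ I) \ J)) := by
      intro I _
      rw [ih, Finset.mul_sum]
    have h2 : ∀ I ∈ dn r U, NL r v (q :: l) I * NL r v l₂ (U \ I) =
        ∑ J ∈ wks r (v q.1) I, q.2 ^ J.card * NL r v l (I \ J) * NL r v l₂ (U \ I) := by
      intro I _
      rw [NL, Finset.sum_mul]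
    rw [Finset.sum_congr rfl h1, Finset.sum_congr rfl h2, Finset.sum_sigma', Finset.sum_sigma']
    refine Finset.sum_bij' (fun p _ => ⟨p.1 ∪ p.2, p.1⟩) (fun p _ => ⟨p.2, p.1 \ p.2⟩)
      ?_ ?_ ?_ ?_ ?_
    · rintro ⟨I, J⟩ hp
      rw [Finset.mem_sigma, mem_wks, mem_dn] at hp
      obtain ⟨hI, hJ⟩ := hp
      rw [Finset.mem_sigma, mem_dn, mem_wks]
      refine ⟨⟨Finset.union_subset hI.1 (hJ.1.trans Finset.sdiff_subset),
        fun a ha b hb hab => ?_⟩, Finset.subset_union_left, fun a ha b hb hab => ?_⟩
      · rcases Finset.mem_union.mp hb with h | h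
        · exact Finset.mem_union_left _ (hI.2 a ha b h hab).1
        · by_cases haI : a ∈ I
          · exact Finset.mem_union_left _ haI
          · exact Finset.mem_union_right _ (hJ.2 a (Finset.mem_sdiff.mpr ⟨ha, haI⟩) b h hab)
      · refine hI.2 a ?_ b hb hab
        rcases Finset.mem_union.mp ha with h | h
        · exact hI.1 h
        · exact (Finset.mem_sdiff.mp (hJ.1 h)).1
    · rintro ⟨I, J⟩ hp
      rw [Finset.mem_sigma, mem_dn, mem_wks] at hp
      obtain ⟨hI, hJ⟩ := hp
      rw [Finset.mem_sigma, mem_wks, mem_dn]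
      refine ⟨⟨hJ.1.trans hI.1, fun a ha b hb hab => ?_⟩, ?_, fun a ha b hb hab => ?_⟩
      · exact hJ.2 a (hI.2 a ha b (hJ.1 hb) hab) b hb hab
      · exact Finset.sdiff_subset_sdiff hI.1 (Finset.Subset.refl _)
      · rw [Finset.mem_sdiff] at ha hb ⊢
        exact ⟨hI.2 a ha.1 b hb.1 hab, ha.2⟩
    · rintro ⟨I, J⟩ hp
      rw [Finset.mem_sigma, mem_wks, mem_dn] at hp
      obtain ⟨hI, hJ⟩ := hp
      have h3 : (I ∪ J) \ I = J := by
        ext x
        simp only [Finset.mem_sdiff, Finset.mem_union]
        constructor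
        · rintro ⟨h | h, h'⟩
          · exact absurd h h'
          · exact h
        · intro h
          exact ⟨Or.inr h, (Finset.mem_sdiff.mp (hJ.1 h)).2⟩
      simp only [h3]
    · rintro ⟨I, J⟩ hp
      rw [Finset.mem_sigma, mem_dn, mem_wks] at hp
      obtain ⟨hI, hJ⟩ := hp
      simp only [Finset.union_sdiff_of_subset hJ.1]
    · rintro ⟨I, J⟩ hp
      rw [Finset.mem_sigma, mem_wks, mem_dn] at hp
      obtain ⟨hI, hJ⟩ := hp
      have h3 : (I ∪ J) \ I = J := by
        ext x
        simp only [Finset.mem_sdiff, Finset.mem_union]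
        constructor
        · rintro ⟨h | h, h'⟩
          · exact absurd h h'
          · exact h
        · intro h
          exact ⟨Or.inr h, (Finset.mem_sdiff.mp (hJ.1 h)).2⟩
      have h4 : (U \ I) \ J = U \ (I ∪ J) := by
        ext x
        simp only [Finset.mem_sdiff, Finset.mem_union]
        tauto
      simp only [h3, h4]
      ring

open Classical in
theorem NL_single {r : P → P → Prop} {v : Bool → P → ℤ} (c : Bool) (z : B) (U : Finset P) :
    NL r v [(c, z)] U = if Wk r (v c) U U then z ^ U.card else 0 := by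
  rw [NL]
  split_ifs with h
  · rw [Finset.sum_eq_single U]
    · rw [Finset.sdiff_self, NL_empty, mul_one]
    · intro I hI hne
      rw [NL, if_neg, mul_zero]
      intro h1
      apply hne
      exact Finset.Subset.antisymm (mem_wks.mp hI).1 (Finset.sdiff_eq_empty_iff_subset.mp h1)
    · intro h1
      exact absurd (mem_wks.mpr h) h1
  · apply Finset.sum_eq_zero
    intro I hI
    rw [NL, if_neg, mul_zero]
    intro h1
    apply h
    have h2 : I = U :=
      Finset.Subset.antisymm (mem_wks.mp hI).1 (Finset.sdiff_eq_empty_iff_subset.mp h1)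
    rw [h2] at hI
    exact mem_wks.mp hI

open Classical in
/-- the value on two letters of opposite kinds, with values `α + β = 1` -/
theorem NL_pair {r : P → P → Prop} (ht : ∀ x y z, r x y → r y z → r x z)
    {v : Bool → P → ℤ} (hv : ∀ c p, v (!c) p = - v c p) (c : Bool) {α β : B} (hαβ : α + β = 1)
    (U : Finset P) :
    NL r v [(!c, α), (c, β)] U =
      if PlP r (fun a b => r b a) (v c) U U then
        α ^ (U \ AL (fun a b => r b a) (-(v c)) U).card * β ^ (U \ AL r (-(v c)) U).card
      else 0 := by
  have hvc : v (!c) = -(v c) := funext (fun p => hv c p)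
  have h1 : NL r v [(!c, α), (c, β)] U =
      ∑ I ∈ wks r (-(v c)) U, ∑ I' ∈ wks r (v c) (U \ I),
        (if I ∪ I' = U then 1 else 0) * (α ^ I.card * β ^ I'.card) := by
    rw [NL]
    simp only [hvc]
    apply Finset.sum_congr rfl
    intro I hI
    rw [NL, Finset.mul_sum]
    apply Finset.sum_congr rfl
    intro I' hI'
    rw [NL]
    have h2 : ((U \ I) \ I' = ∅) ↔ I ∪ I' = U := by
      rw [Finset.sdiff_eq_empty_iff_subset]
      constructor
      · intro h
        apply Finset.Subset.antisymm
        · exact Finset.union_subset (mem_wks.mp hI).1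
            ((mem_wks.mp hI').1.trans Finset.sdiff_subset)
        · intro x hx
          by_cases hxI : x ∈ I
          · exact Finset.mem_union_left _ hxI
          · exact Finset.mem_union_right _ (h (Finset.mem_sdiff.mpr ⟨hx, hxI⟩))
      · intro h x hx
        rw [Finset.mem_sdiff] at hx
        rw [← h] at hx
        exact (Finset.mem_union.mp hx.1).resolve_left hx.2
    by_cases h : I ∪ I' = U
    · rw [if_pos h, if_pos (h2.mpr h)]
      ring
    · rw [if_neg h, if_neg (fun h' => h (h2.mp h'))]
      ring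
  rw [h1, sum_split (r := r) (r' := fun a b => r b a) ht (fun x y => Iff.rfl)
    (fun X => if X = U then (1 : B) else 0) α β]
  simp only [hαβ, one_pow, mul_one]
  split_ifs with h
  · rw [Finset.sum_eq_single U]
    · rw [if_pos rfl, one_mul]
    · intro W _ hne
      rw [if_neg hne, zero_mul]
    · intro h'
      exact absurd (mem_Pl.mpr h) h'
  · apply Finset.sum_eq_zero
    intro W hW
    rw [if_neg, zero_mul]
    rintro rfl
    exact h (mem_Pl.mp hW)

end words

end Pool.Agent.Lib.MP_5bc52d_co.Key
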