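import Mathlib
import Pool.Agent.Lib.MP_5bc52d_co.H3.Words

/-!
# Height three: the combinatorics of the two phases
-/

open Finset Polynomial

set_option linter.unusedSectionVars false

namespace Pool.Agent.Lib.MP_5bc52d_co.Key

open Splitting Cyc Cut

section
variable {P : Type*} [Fintype P] [DecidableEq P]

/-- forced on the first letter -/
def F1 (r : P → P → Prop) (w : P → ℤ) (W : Finset P) (x : P) : Prop :=
  ∃ a ∈ W, ∃ b ∈ W, r b a ∧ (b = x ∨ r x b) ∧ w a < w b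

/-- forced on the second letter -/
def F2 (r : P → P → Prop) (w : P → ℤ) (W : Finset P) (x : P) : Prop :=
  ∃ a ∈ W, ∃ b ∈ W, r a b ∧ (b = x ∨ r b x) ∧ w a < w b

open Classical in
noncomputable def F1s (r : P → P → Prop) (w : P → ℤ) (W : Finset P) : Finset P :=
  W.filter (F1 r w W)

open Classical in
noncomputable def F2s (r : P → P → Prop) (w : P → ℤ) (W : Finset P) : Finset P :=
  W.filter (F2 r w W)

theorem mem_F1s {r : P → P → Prop} {w : P → ℤ} {W : Finset P} {x : P} :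
    x ∈ F1s r w W ↔ x ∈ W ∧ F1 r w W x := by
  classical
  rw [F1s, Finset.mem_filter]

theorem mem_F2s {r : P → P → Prop} {w : P → ℤ} {W : Finset P} {x : P} :
    x ∈ F2s r w W ↔ x ∈ W ∧ F2 r w W x := by
  classical
  rw [F2s, Finset.mem_filter]

/-- `W` can be placed on the two letters -/
def Vd (r : P → P → Prop) (w : P → ℤ) (W : Finset P) : Prop :=
  ∀ x ∈ W, ¬ (F1 r w W x ∧ F2 r w W x)

theorem F1s_eq {r : P → P → Prop} {w : P → ℤ} (hw : ∀ x y, r x y → w x ≠ w y) {W : Finset P} :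
    W \ AL (fun a b => r b a) (-w) W = F1s r w W := by
  ext x
  rw [Finset.mem_sdiff, mem_F1s, mem_AL]
  constructor
  · rintro ⟨hx, h⟩
    refine ⟨hx, ?_⟩
    by_contra hcon
    apply h
    refine ⟨hx, fun a ha b hb hab h' => ?_⟩
    simp only [Pi.neg_apply]
    by_contra hlt
    apply hcon
    have h1 := hw b a hab
    exact ⟨a, ha, b, hb, hab, h', by omega⟩
  · rintro ⟨hx, a, ha, b, hb, hab, h', hlt⟩
    refine ⟨hx, fun h => ?_⟩
    have h1 := h.2 a ha b hb hab h'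
    simp only [Pi.neg_apply] at h1
    omega

theorem F2s_eq {r : P → P → Prop} {w : P → ℤ} (hw : ∀ x y, r x y → w x ≠ w y) {W : Finset P} :
    W \ AL r (-w) W = F2s r w W := by
  ext x
  rw [Finset.mem_sdiff, mem_F2s, mem_AL]
  constructor
  · rintro ⟨hx, h⟩
    refine ⟨hx, ?_⟩
    by_contra hcon
    apply h
    refine ⟨hx, fun a ha b hb hab h' => ?_⟩
    simp only [Pi.neg_apply]
    by_contra hlt
    apply hcon
    have h1 := hw a b hab
    exact ⟨a, ha, b, hb, hab, h', by omega⟩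
  · rintro ⟨hx, a, ha, b, hb, hab, h', hlt⟩
    refine ⟨hx, fun h => ?_⟩
    have h1 := h.2 a ha b hb hab h'
    simp only [Pi.neg_apply] at h1
    omega

theorem PlP_iff {r : P → P → Prop} {w : P → ℤ} (hw : ∀ x y, r x y → w x ≠ w y)
    {W : Finset P} : PlP r (fun a b => r b a) w W W ↔ Vd r w W := by
  have h1 := F1s_eq hw (W := W)
  have h2 := F2s_eq hw (W := W)
  constructor
  · rintro ⟨-, -, h⟩ x hx ⟨h3, h4⟩
    have h5 : x ∈ W \ AL (fun a b => r b a) (-w) W := by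
      rw [h1]
      exact mem_F1s.mpr ⟨hx, h3⟩
    have h6 : x ∈ W \ AL r (-w) W := by
      rw [h2]
      exact mem_F2s.mpr ⟨hx, h4⟩
    rcases h x hx with h | h
    · exact (Finset.mem_sdiff.mp h6).2 h
    · exact (Finset.mem_sdiff.mp h5).2 h
  · intro h
    refine ⟨Finset.Subset.refl _, fun a ha _ _ _ => ha, fun x hx => ?_⟩
    by_contra hcon
    push Not at hcon
    apply h x hx
    constructor
    · have h5 : x ∈ W \ AL (fun a b => r b a) (-w) W := Finset.mem_sdiff.mpr ⟨hx, hcon.2⟩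
      rw [h1] at h5
      exact (mem_F1s.mp h5).2
    · have h5 : x ∈ W \ AL r (-w) W := Finset.mem_sdiff.mpr ⟨hx, hcon.1⟩
      rw [h2] at h5
      exact (mem_F2s.mp h5).2

/-- coefficients of `X ^ a * (1 - X) ^ b` -/
theorem coeff_pair {a b D : ℕ} (h : a + b ≤ D) :
    ((X : ℚ[X]) ^ a * (1 - X) ^ b).coeff D = if a + b = D then (-1) ^ b else 0 := by
  have hd : (1 - X : ℚ[X]).natDegree ≤ 1 := by
    refine (natDegree_sub_le _ _).trans ?_
    simp
  rw [coeff_X_pow_mul', if_pos (by omega)]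
  split_ifs with h1
  · have h2 : D - a = 1 * b := by omega
    rw [h2, mul_comm 1 b, coeff_pow_of_natDegree_le hd]
    congr 1
    simp [coeff_one, coeff_X]
  · apply coeff_eq_zero_of_natDegree_lt
    have h2 : ((1 - X : ℚ[X]) ^ b).natDegree ≤ b * 1 :=
      natDegree_pow_le.trans (Nat.mul_le_mul_left _ hd)
    omega

end

section h3
variable {P : Type*} [Fintype P] [DecidableEq P] {r : P → P → Prop} {w : P → ℤ}
  {C : Finset P} {m : P}

/-- elements with an element above inside `C` -/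
def Lo (r : P → P → Prop) (C : Finset P) (x : P) : Prop := ∃ y ∈ C, r x y

/-- elements with an element below inside `C` -/
def Hi (r : P → P → Prop) (C : Finset P) (y : P) : Prop := ∃ x ∈ C, r x y

open Classical in
noncomputable def X1 (r : P → P → Prop) (w : P → ℤ) (C : Finset P) (m : P) : Finset P :=
  C.filter (fun x => ∃ y ∈ C, r x y ∧ w x < w y ∧ w m < w y)

open Classical in
noncomputable def X0 (r : P → P → Prop) (w : P → ℤ) (C : Finset P) : Finset P :=
  C.filter (fun x => Lo r C x ∧ ∀ y ∈ C, r x y → w x < w y)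

open Classical in
noncomputable def Y0 (r : P → P → Prop) (w : P → ℤ) (C : Finset P) : Finset P :=
  C.filter (fun y => Hi r C y ∧ ∀ x ∈ C, r x y → w y < w x)

open Classical in
noncomputable def Y1 (r : P → P → Prop) (w : P → ℤ) (C : Finset P) (m : P) : Finset P :=
  C.filter (fun y => Hi r C y ∧ w y < w m ∧ ∀ x ∈ C, r x y → w x < w y → x ∈ X1 r w C m)

theorem mem_X1 {x : P} :
    x ∈ X1 r w C m ↔ x ∈ C ∧ ∃ y ∈ C, r x y ∧ w x < w y ∧ w m < w y := by
  classical
  rw [X1, Finset.mem_filter]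

theorem mem_X0 {x : P} :
    x ∈ X0 r w C ↔ x ∈ C ∧ Lo r C x ∧ ∀ y ∈ C, r x y → w x < w y := by
  classical
  rw [X0, Finset.mem_filter]

theorem mem_Y0 {y : P} :
    y ∈ Y0 r w C ↔ y ∈ C ∧ Hi r C y ∧ ∀ x ∈ C, r x y → w y < w x := by
  classical
  rw [Y0, Finset.mem_filter]

theorem mem_Y1 {y : P} :
    y ∈ Y1 r w C m ↔ y ∈ C ∧ Hi r C y ∧ w y < w m ∧
      ∀ x ∈ C, r x y → w x < w y → x ∈ X1 r w C m := by
  classical
  rw [Y1, Finset.mem_filter]

/-- the elements which are never forced when `m` is in the middle -/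
noncomputable def NA (r : P → P → Prop) (w : P → ℤ) (C : Finset P) (m : P) : Finset P :=
  X1 r w C m ∪ X0 r w C ∪ Y1 r w C m

/-- the elements which are never forced when `m` is outside -/
noncomputable def NB (r : P → P → Prop) (w : P → ℤ) (C : Finset P) (m : P) : Finset P :=
  insert m (X0 r w C ∪ Y0 r w C)

theorem mem_NA {x : P} :
    x ∈ NA r w C m ↔ x ∈ X1 r w C m ∨ x ∈ X0 r w C ∨ x ∈ Y1 r w C m := by
  rw [NA, Finset.mem_union, Finset.mem_union, or_assoc]

theorem mem_NB {x : P} :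
    x ∈ NB r w C m ↔ x = m ∨ x ∈ X0 r w C ∨ x ∈ Y0 r w C := by
  rw [NB, Finset.mem_insert, Finset.mem_union]

/-- optimality in the first phase -/
def OA (r : P → P → Prop) (w : P → ℤ) (C : Finset P) (m : P) (I : Finset P) : Prop :=
  X1 r w C m ⊆ I ∧ (∃ y ∈ C \ I, Hi r C y ∧ w y < w m) ∧
    (∀ x ∈ C, Lo r C x → x ∉ NA r w C m → x ∉ I) ∧
    (∀ y ∈ C, Hi r C y → y ∉ NA r w C m → y ∉ I ∧
      (w m < w y ∨ ∃ a ∈ C \ I, r a y ∧ w a < w y))

/-- the constant set of elements forced on the second letter in the first phase -/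
noncomputable def ZA (r : P → P → Prop) (w : P → ℤ) (C : Finset P) (m : P) : Finset P := by
  classical
  exact insert m (C.filter (fun y => Hi r C y ∧ w y < w m ∧ y ∉ Y1 r w C m))

theorem mem_ZA {y : P} :
    y ∈ ZA r w C m ↔ y = m ∨ (y ∈ C ∧ Hi r C y ∧ w y < w m ∧ y ∉ Y1 r w C m) := by
  classical
  rw [ZA, Finset.mem_insert, Finset.mem_filter]

variable (ht : ∀ x y z, r x y → r y z → r x z) (hi : ∀ x, ¬ r x x)
  (hw : ∀ x y, r x y → w x ≠ w y) (hmC : m ∉ C) (hm : ∀ p ∈ C, r p m)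
  (hh : ∀ x ∈ C, ∀ y ∈ C, ∀ z ∈ C, r x y → ¬ r y z)
include ht hi hw hmC hm hh

omit ht hi hw hmC hm in
theorem not_Lo_Hi {x : P} (hx : x ∈ C) (h1 : Lo r C x) (h2 : Hi r C x) : False := by
  obtain ⟨y, hy, hxy⟩ := h1
  obtain ⟨z, hz, hzx⟩ := h2
  exact hh z hz x hx y hy hzx hxy

omit hw hh in
theorem m_top {x : P} (hx : x ∈ insert m C) (h : r m x) : False := by
  rcases Finset.mem_insert.mp hx with h1 | h1
  · exact hi m (h1 ▸ h)
  · exact hi m (ht _ _ _ h (hm x h1))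

section A
variable {I : Finset P} (hIC : I ⊆ C) (hId : ∀ a ∈ C, ∀ b ∈ I, r a b → a ∈ I)
include hIC hId

omit ht hi hw hmC hm hh hIC in
theorem up_notMem {x y : P} (hx : x ∈ C) (hxI : x ∉ I) (hxy : r x y) : y ∉ I :=
  fun h => hxI (hId x hx y h hxy)

/-- the first phase: admissible iff `X1 ⊆ I` -/
theorem A_valid : Vd r w (insert m (C \ I)) ↔ X1 r w C m ⊆ I := by
  constructor
  · intro h x hx
    obtain ⟨hxC, y, hy, hxy, hlt, hmy⟩ := mem_X1.mp hx
    by_contra hxI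
    have hyI := up_notMem hId hxC hxI hxy
    have hyW : y ∈ insert m (C \ I) :=
      Finset.mem_insert_of_mem (Finset.mem_sdiff.mpr ⟨hy, hyI⟩)
    have hxW : x ∈ insert m (C \ I) :=
      Finset.mem_insert_of_mem (Finset.mem_sdiff.mpr ⟨hxC, hxI⟩)
    exact h y hyW ⟨⟨m, Finset.mem_insert_self m _, y, hyW, hm y hy, Or.inl rfl, hmy⟩,
      ⟨x, hxW, y, hyW, hxy, Or.inl rfl, hlt⟩⟩
  · rintro h x hx ⟨⟨a, ha, b, hb, hba, hbx, hlt⟩, ⟨a', ha', b', hb', hab', hbx', hlt'⟩⟩
    have hsub : ∀ y, y ∈ insert m (C \ I) → y ∈ insert m C := fun y hy => by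
      rcases Finset.mem_insert.mp hy with h1 | h1
      · exact h1 ▸ Finset.mem_insert_self m C
      · exact Finset.mem_insert_of_mem (Finset.mem_sdiff.mp h1).1
    -- `b` is not `m`, so `x ∈ C`
    have hbm : b ≠ m := fun h1 => m_top ht hi hmC hm (hsub a ha) (h1 ▸ hba)
    have hbC : b ∈ C \ I := (Finset.mem_insert.mp hb).resolve_left hbm
    have hxm : x ≠ m := by
      intro h1
      rcases hbx with h2 | h2
      · exact hbm (h2.trans h1)
      · exact m_top ht hi hmC hm (hsub b hb) (h1 ▸ h2)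
    have hxC : x ∈ C \ I := (Finset.mem_insert.mp hx).resolve_left hxm
    have hxC' := (Finset.mem_sdiff.mp hxC).1
    have hbC' := (Finset.mem_sdiff.mp hbC).1
    -- the weak relation ends in `x`
    have hb'm : b' ≠ m := by
      intro h1
      rcases hbx' with h2 | h2
      · exact hxm (h2.symm.trans h1)
      · exact m_top ht hi hmC hm (hsub x hx) (h1 ▸ h2)
    have hb'C : b' ∈ C \ I := (Finset.mem_insert.mp hb').resolve_left hb'm
    have ha'm : a' ≠ m := fun h1 => m_top ht hi hmC hm (hsub b' hb') (h1 ▸ hab')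
    have ha'C : a' ∈ C \ I := (Finset.mem_insert.mp ha').resolve_left ha'm
    have ha'C' := (Finset.mem_sdiff.mp ha'C).1
    have hb'C' := (Finset.mem_sdiff.mp hb'C).1
    have hb'x : b' = x := by
      rcases hbx' with h2 | h2
      · exact h2
      · exact absurd h2 (hh a' ha'C' b' hb'C' x hxC' hab')
    subst hb'x
    -- so nothing in `C` is above `x`
    have hbx2 : b = b' := by
      rcases hbx with h2 | h2
      · exact h2
      · exact absurd h2 (hh a' ha'C' b' hb'C' b hbC' hab')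
    subst hbx2
    have ham : a = m := by
      rcases Finset.mem_insert.mp ha with h2 | h2
      · exact h2
      · exact absurd hba (hh a' ha'C' b hb'C' a (Finset.mem_sdiff.mp h2).1 hab')
    subst ham
    exact (Finset.mem_sdiff.mp ha'C).2 (h (mem_X1.mpr ⟨ha'C', b, hb'C', hab', hlt', hlt⟩))

variable (hX : X1 r w C m ⊆ I)
include hX

theorem A_F1 {x : P} (hx : x ∈ C \ I) : F1 r w (insert m (C \ I)) x ↔
    (∃ y ∈ C, r x y ∧ w y < w x) ∨ (¬ Lo r C x ∧ w m < w x) := by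
  have hx' := Finset.mem_sdiff.mp hx
  have hsub : ∀ y, y ∈ insert m (C \ I) → y ∈ insert m C := fun y hy => by
    rcases Finset.mem_insert.mp hy with h1 | h1
    · exact h1 ▸ Finset.mem_insert_self m C
    · exact Finset.mem_insert_of_mem (Finset.mem_sdiff.mp h1).1
  constructor
  · rintro ⟨a, ha, b, hb, hba, hbx, hlt⟩
    have hbm : b ≠ m := fun h1 => m_top ht hi hmC hm (hsub a ha) (h1 ▸ hba)
    have hbC : b ∈ C \ I := (Finset.mem_insert.mp hb).resolve_left hbm
    have hbC' := (Finset.mem_sdiff.mp hbC).1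
    -- a strict relation to `m` from an element above-or-equal
    rcases hbx with h2 | h2
    · subst h2
      rcases Finset.mem_insert.mp ha with h3 | h3
      · subst h3
        by_cases hlo : Lo r C b
        · left
          obtain ⟨y, hy, hby⟩ := hlo
          refine ⟨y, hy, hby, ?_⟩
          by_contra hge
          have h4 := hw b y hby
          exact hx'.2 (hX (mem_X1.mpr ⟨hx'.1, y, hy, hby, by omega, by omega⟩))
        · exact Or.inr ⟨hlo, hlt⟩
      · exact Or.inl ⟨a, (Finset.mem_sdiff.mp h3).1, hba, hlt⟩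
    · left
      rcases Finset.mem_insert.mp ha with h3 | h3
      · subst h3
        refine ⟨b, hbC', h2, ?_⟩
        by_contra hge
        have h4 := hw x b h2
        exact hx'.2 (hX (mem_X1.mpr ⟨hx'.1, b, hbC', h2, by omega, hlt⟩))
      · exact absurd hba (hh x hx'.1 b hbC' a (Finset.mem_sdiff.mp h3).1 h2)
  · rintro (⟨y, hy, hxy, hlt⟩ | ⟨-, hlt⟩)
    · have hyI := up_notMem hId hx'.1 hx'.2 hxy
      exact ⟨y, Finset.mem_insert_of_mem (Finset.mem_sdiff.mpr ⟨hy, hyI⟩), x,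
        Finset.mem_insert_of_mem hx, hxy, Or.inl rfl, hlt⟩
    · exact ⟨m, Finset.mem_insert_self m _, x, Finset.mem_insert_of_mem hx, hm x hx'.1,
        Or.inl rfl, hlt⟩

omit hw hIC hId hX in
theorem A_F2 {x : P} (hx : x ∈ C \ I) : F2 r w (insert m (C \ I)) x ↔
    ∃ a ∈ C \ I, r a x ∧ w a < w x := by
  have hx' := Finset.mem_sdiff.mp hx
  have hsub : ∀ y, y ∈ insert m (C \ I) → y ∈ insert m C := fun y hy => by
    rcases Finset.mem_insert.mp hy with h1 | h1
    · exact h1 ▸ Finset.mem_insert_self m C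
    · exact Finset.mem_insert_of_mem (Finset.mem_sdiff.mp h1).1
  constructor
  · rintro ⟨a, ha, b, hb, hab, hbx, hlt⟩
    have ham : a ≠ m := fun h1 => m_top ht hi hmC hm (hsub b hb) (h1 ▸ hab)
    have haC : a ∈ C \ I := (Finset.mem_insert.mp ha).resolve_left ham
    rcases hbx with h2 | h2
    · subst h2
      exact ⟨a, haC, hab, hlt⟩
    · exfalso
      have hbm : b ≠ m := fun h1 =>
        m_top ht hi hmC hm (Finset.mem_insert_of_mem hx'.1) (h1 ▸ h2)
      have hbC : b ∈ C \ I := (Finset.mem_insert.mp hb).resolve_left hbm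
      exact hh a (Finset.mem_sdiff.mp haC).1 b (Finset.mem_sdiff.mp hbC).1 x hx'.1 hab h2
  · rintro ⟨a, ha, hax, hlt⟩
    exact ⟨a, Finset.mem_insert_of_mem ha, x, Finset.mem_insert_of_mem hx, hax, Or.inl rfl, hlt⟩

omit hw hIC hId hX hh in
theorem A_F1m : ¬ F1 r w (insert m (C \ I)) m := by
  rintro ⟨a, ha, b, hb, hba, hbx, -⟩
  have hsub : ∀ y, y ∈ insert m (C \ I) → y ∈ insert m C := fun y hy => by
    rcases Finset.mem_insert.mp hy with h1 | h1
    · exact h1 ▸ Finset.mem_insert_self m C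
    · exact Finset.mem_insert_of_mem (Finset.mem_sdiff.mp h1).1
  rcases hbx with h2 | h2
  · exact m_top ht hi hmC hm (hsub a ha) (h2 ▸ hba)
  · exact m_top ht hi hmC hm (hsub b hb) h2

/-- every element of `C` has a comparable element in `C` -/
theorem A_F2m (hiso : ∀ x ∈ C, Lo r C x ∨ Hi r C x) : F2 r w (insert m (C \ I)) m ↔
    ∃ y ∈ C \ I, Hi r C y ∧ w y < w m := by
  have hsub : ∀ y, y ∈ insert m (C \ I) → y ∈ insert m C := fun y hy => by
    rcases Finset.mem_insert.mp hy with h1 | h1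
    · exact h1 ▸ Finset.mem_insert_self m C
    · exact Finset.mem_insert_of_mem (Finset.mem_sdiff.mp h1).1
  constructor
  · rintro ⟨a, ha, b, hb, hab, hbx, hlt⟩
    have ham : a ≠ m := fun h1 => m_top ht hi hmC hm (hsub b hb) (h1 ▸ hab)
    have haC : a ∈ C \ I := (Finset.mem_insert.mp ha).resolve_left ham
    have haC' := Finset.mem_sdiff.mp haC
    by_cases hbm : b = m
    · subst hbm
      rcases hiso a haC'.1 with hlo | hhi
      · obtain ⟨y, hy, hay⟩ := hlo
        have hyI := up_notMem hId haC'.1 haC'.2 hay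
        refine ⟨y, Finset.mem_sdiff.mpr ⟨hy, hyI⟩, ⟨a, haC'.1, hay⟩, ?_⟩
        by_contra hge
        have h4 := hw y b (hm y hy)
        exact haC'.2 (hX (mem_X1.mpr ⟨haC'.1, y, hy, hay, by omega, by omega⟩))
      · exact ⟨a, haC, hhi, hlt⟩
    · have hbC : b ∈ C \ I := (Finset.mem_insert.mp hb).resolve_left hbm
      have hbC' := Finset.mem_sdiff.mp hbC
      refine ⟨b, hbC, ⟨a, haC'.1, hab⟩, ?_⟩
      by_contra hge
      have h4 := hw b m (hm b hbC'.1)
      exact haC'.2 (hX (mem_X1.mpr ⟨haC'.1, b, hbC'.1, hab, hlt, by omega⟩))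
  · rintro ⟨y, hy, -, hlt⟩
    exact ⟨y, Finset.mem_insert_of_mem hy, m, Finset.mem_insert_self m _,
      hm y (Finset.mem_sdiff.mp hy).1, Or.inl rfl, hlt⟩

/-- the forced elements in the first phase -/
theorem A_sub :
    F1s r w (insert m (C \ I)) ∪ F2s r w (insert m (C \ I)) ⊆ insert m C \ NA r w C m := by
  intro x hx
  rw [Finset.mem_union, mem_F1s, mem_F2s] at hx
  have hxW : x ∈ insert m (C \ I) := by
    rcases hx with h | h
    · exact h.1
    · exact h.1
  have hbd : F1 r w (insert m (C \ I)) x ∨ F2 r w (insert m (C \ I)) x := by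
    rcases hx with h | h
    · exact Or.inl h.2
    · exact Or.inr h.2
  rw [Finset.mem_sdiff, mem_NA]
  rcases Finset.mem_insert.mp hxW with h1 | h1
  · refine ⟨h1 ▸ Finset.mem_insert_self m C, fun h2 => ?_⟩
    subst h1
    rcases h2 with h2 | h2 | h2
    · exact hmC (mem_X1.mp h2).1
    · exact hmC (mem_X0.mp h2).1
    · exact hmC (mem_Y1.mp h2).1
  · have hx' := Finset.mem_sdiff.mp h1
    refine ⟨Finset.mem_insert_of_mem hx'.1, fun h2 => ?_⟩
    rw [A_F1 ht hi hw hmC hm hh hIC hId hX h1, A_F2 ht hi hmC hm hh h1] at hbd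
    rcases h2 with h2 | h2 | h2
    · exact hx'.2 (hX h2)
    · obtain ⟨-, hlo, hall⟩ := mem_X0.mp h2
      rcases hbd with (⟨y, hy, hxy, hlt⟩ | ⟨h3, -⟩) | ⟨a, ha, hax, -⟩
      · have := hall y hy hxy
        omega
      · exact h3 hlo
      · exact not_Lo_Hi hh hx'.1 hlo ⟨a, (Finset.mem_sdiff.mp ha).1, hax⟩
    · obtain ⟨-, hhi, hlt1, hall⟩ := mem_Y1.mp h2
      rcases hbd with (⟨y, hy, hxy, hlt⟩ | ⟨-, h3⟩) | ⟨a, ha, hax, hlt⟩
      · exact not_Lo_Hi hh hx'.1 ⟨y, hy, hxy⟩ hhi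
      · omega
      · have ha' := Finset.mem_sdiff.mp ha
        exact ha'.2 (hX (hall a ha'.1 hax hlt))

/-- optimality in the first phase -/
theorem A_eq (hiso : ∀ x ∈ C, Lo r C x ∨ Hi r C x) :
    F1s r w (insert m (C \ I)) ∪ F2s r w (insert m (C \ I)) = insert m C \ NA r w C m ↔
      OA r w C m I := by
  have hmNA : m ∉ NA r w C m := by
    rw [mem_NA]
    rintro (h2 | h2 | h2)
    · exact hmC (mem_X1.mp h2).1
    · exact hmC (mem_X0.mp h2).1
    · exact hmC (mem_Y1.mp h2).1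
  have hmem : ∀ x, x ∈ C → x ∉ NA r w C m →
      F1s r w (insert m (C \ I)) ∪ F2s r w (insert m (C \ I)) = insert m C \ NA r w C m →
      x ∈ C \ I ∧ (F1 r w (insert m (C \ I)) x ∨ F2 r w (insert m (C \ I)) x) := by
    intro x hx hxN he
    have h1 : x ∈ F1s r w (insert m (C \ I)) ∪ F2s r w (insert m (C \ I)) := by
      rw [he, Finset.mem_sdiff]
      exact ⟨Finset.mem_insert_of_mem hx, hxN⟩
    have hxm : x ≠ m := fun h => hmC (h ▸ hx)
    rw [Finset.mem_union, mem_F1s, mem_F2s] at h1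
    rcases h1 with h1 | h1
    · exact ⟨(Finset.mem_insert.mp h1.1).resolve_left hxm, Or.inl h1.2⟩
    · exact ⟨(Finset.mem_insert.mp h1.1).resolve_left hxm, Or.inr h1.2⟩
  constructor
  · intro he
    refine ⟨hX, ?_, fun x hx hlo hxN => ?_, fun y hy hhi hyN => ?_⟩
    · have h1 : m ∈ F1s r w (insert m (C \ I)) ∪ F2s r w (insert m (C \ I)) := by
        rw [he, Finset.mem_sdiff]
        exact ⟨Finset.mem_insert_self m C, hmNA⟩
      rw [Finset.mem_union, mem_F1s, mem_F2s] at h1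
      rcases h1 with h1 | h1
      · exact absurd h1.2 (A_F1m ht hi hmC hm)
      · exact (A_F2m ht hi hw hmC hm hh hIC hId hX hiso).mp h1.2
    · exact (Finset.mem_sdiff.mp (hmem x hx hxN he).1).2
    · obtain ⟨h1, h2⟩ := hmem y hy hyN he
      refine ⟨(Finset.mem_sdiff.mp h1).2, ?_⟩
      rw [A_F1 ht hi hw hmC hm hh hIC hId hX h1, A_F2 ht hi hmC hm hh h1] at h2
      rcases h2 with (⟨z, hz, hyz, -⟩ | ⟨-, h3⟩) | h3
      · exact absurd hhi (fun h => not_Lo_Hi hh hy ⟨z, hz, hyz⟩ h)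
      · exact Or.inl h3
      · exact Or.inr h3
  · rintro ⟨-, h1, h2, h3⟩
    apply Finset.Subset.antisymm (A_sub ht hi hw hmC hm hh hIC hId hX)
    intro x hx
    rw [Finset.mem_sdiff] at hx
    rcases Finset.mem_insert.mp hx.1 with h4 | h4
    · subst h4
      apply Finset.mem_union_right
      exact mem_F2s.mpr ⟨Finset.mem_insert_self _ _,
        (A_F2m ht hi hw hmC hm hh hIC hId hX hiso).mpr h1⟩
    · rcases hiso x h4 with hlo | hhi
      · have hxI := h2 x h4 hlo hx.2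
        have hxC : x ∈ C \ I := Finset.mem_sdiff.mpr ⟨h4, hxI⟩
        apply Finset.mem_union_left
        refine mem_F1s.mpr ⟨Finset.mem_insert_of_mem hxC, ?_⟩
        rw [A_F1 ht hi hw hmC hm hh hIC hId hX hxC]
        left
        by_contra hcon
        push Not at hcon
        apply hx.2
        rw [mem_NA]
        right; left
        refine mem_X0.mpr ⟨h4, hlo, fun y hy hxy => ?_⟩
        have h5 := hcon y hy hxy
        have h6 := hw x y hxy
        omega
      · obtain ⟨hxI, h5⟩ := h3 x h4 hhi hx.2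
        have hxC : x ∈ C \ I := Finset.mem_sdiff.mpr ⟨h4, hxI⟩
        rcases h5 with h5 | h5
        · apply Finset.mem_union_left
          refine mem_F1s.mpr ⟨Finset.mem_insert_of_mem hxC, ?_⟩
          rw [A_F1 ht hi hw hmC hm hh hIC hId hX hxC]
          exact Or.inr ⟨fun h => not_Lo_Hi hh h4 h hhi, h5⟩
        · apply Finset.mem_union_right
          refine mem_F2s.mpr ⟨Finset.mem_insert_of_mem hxC, ?_⟩
          rw [A_F2 ht hi hmC hm hh hxC]
          exact h5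

/-- the elements forced on the second letter do not depend on the optimal `I` -/
theorem A_F2s (hiso : ∀ x ∈ C, Lo r C x ∨ Hi r C x) (hO : OA r w C m I) :
    F2s r w (insert m (C \ I)) = ZA r w C m := by
  obtain ⟨-, h1, h2, h3⟩ := hO
  ext x
  rw [mem_F2s, mem_ZA]
  constructor
  · rintro ⟨hxW, hF⟩
    rcases Finset.mem_insert.mp hxW with h4 | h4
    · exact Or.inl h4
    · right
      rw [A_F2 ht hi hmC hm hh h4] at hF
      obtain ⟨a, ha, hax, hlt⟩ := hF
      have ha' := Finset.mem_sdiff.mp ha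
      have hx' := Finset.mem_sdiff.mp h4
      refine ⟨hx'.1, ⟨a, ha'.1, hax⟩, ?_, fun h5 => ?_⟩
      · by_contra hge
        have h6 := hw x m (hm x hx'.1)
        exact ha'.2 (hX (mem_X1.mpr ⟨ha'.1, x, hx'.1, hax, hlt, by omega⟩))
      · exact ha'.2 (hX ((mem_Y1.mp h5).2.2.2 a ha'.1 hax hlt))
  · rintro (h4 | ⟨hxC, hhi, hlt, hY⟩)
    · subst h4
      exact ⟨Finset.mem_insert_self _ _,
        (A_F2m ht hi hw hmC hm hh hIC hId hX hiso).mpr h1⟩
    · have hxN : x ∉ NA r w C m := by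
        rw [mem_NA]
        rintro (h5 | h5 | h5)
        · obtain ⟨-, y, hy, hxy, -⟩ := mem_X1.mp h5
          exact not_Lo_Hi hh hxC ⟨y, hy, hxy⟩ hhi
        · exact not_Lo_Hi hh hxC (mem_X0.mp h5).2.1 hhi
        · exact hY h5
      obtain ⟨hxI, h5⟩ := h3 x hxC hhi hxN
      have hx : x ∈ C \ I := Finset.mem_sdiff.mpr ⟨hxC, hxI⟩
      refine ⟨Finset.mem_insert_of_mem hx, ?_⟩
      rw [A_F2 ht hi hmC hm hh hx]
      exact h5.resolve_left (by omega)

end A

section B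
variable {W : Finset P} (hWC : W ⊆ C)
include hWC

omit ht hi hw hmC hm in
theorem B_F1 {x : P} (hx : x ∈ W) : F1 r w W x ↔ ∃ y ∈ W, r x y ∧ w y < w x := by
  constructor
  · rintro ⟨a, ha, b, hb, hba, hbx, hlt⟩
    rcases hbx with h2 | h2
    · subst h2
      exact ⟨a, ha, hba, hlt⟩
    · exact absurd hba (hh x (hWC hx) b (hWC hb) a (hWC ha) h2)
  · rintro ⟨y, hy, hxy, hlt⟩
    exact ⟨y, hy, x, hx, hxy, Or.inl rfl, hlt⟩

omit ht hi hw hmC hm in
theorem B_F2 {x : P} (hx : x ∈ W) : F2 r w W x ↔ ∃ y ∈ W, r y x ∧ w y < w x := by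
  constructor
  · rintro ⟨a, ha, b, hb, hab, hbx, hlt⟩
    rcases hbx with h2 | h2
    · subst h2
      exact ⟨a, ha, hab, hlt⟩
    · exact absurd h2 (hh a (hWC ha) b (hWC hb) x (hWC hx) hab)
  · rintro ⟨y, hy, hyx, hlt⟩
    exact ⟨y, hy, x, hx, hyx, Or.inl rfl, hlt⟩

omit ht hi hw hmC hm in
theorem B_valid : Vd r w W := by
  rintro x hx ⟨h1, h2⟩
  rw [B_F1 hh hWC hx] at h1
  rw [B_F2 hh hWC hx] at h2
  obtain ⟨y, hy, hxy, -⟩ := h1
  obtain ⟨z, hz, hzx, -⟩ := h2
  exact hh z (hWC hz) x (hWC hx) y (hWC hy) hzx hxy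

omit ht hi hw hm in
theorem B_sub' : F1s r w W ∪ F2s r w W ⊆ insert m C \ NB r w C m := by
  intro x hx
  rw [Finset.mem_union, mem_F1s, mem_F2s] at hx
  have hxW : x ∈ W := by
    rcases hx with h | h
    · exact h.1
    · exact h.1
  have hxC := hWC hxW
  have hbd : F1 r w W x ∨ F2 r w W x := by
    rcases hx with h | h
    · exact Or.inl h.2
    · exact Or.inr h.2
  rw [B_F1 hh hWC hxW, B_F2 hh hWC hxW] at hbd
  rw [Finset.mem_sdiff, mem_NB]
  refine ⟨Finset.mem_insert_of_mem hxC, ?_⟩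
  rintro (h | h | h)
  · exact hmC (h ▸ hxC)
  · obtain ⟨-, hlo, hall⟩ := mem_X0.mp h
    rcases hbd with ⟨y, hy, hxy, hlt⟩ | ⟨y, hy, hyx, -⟩
    · have := hall y (hWC hy) hxy
      omega
    · exact not_Lo_Hi hh hxC hlo ⟨y, hWC hy, hyx⟩
  · obtain ⟨-, hhi, hall⟩ := mem_Y0.mp h
    rcases hbd with ⟨y, hy, hxy, -⟩ | ⟨y, hy, hyx, hlt⟩
    · exact not_Lo_Hi hh hxC ⟨y, hWC hy, hxy⟩ hhi
    · have := hall y (hWC hy) hyx
      omega

end B

open Classical in
/-- the left faces of the second phase -/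
noncomputable def DB (r : P → P → Prop) (w : P → ℤ) (C : Finset P) : Finset (Finset P) :=
  (X0 r w C).powerset.filter (fun I => ∀ y ∈ C, Hi r C y → y ∉ Y0 r w C →
    ∃ x ∈ C \ I, r x y ∧ w x < w y)

open Classical in
/-- the right faces of the second phase -/
noncomputable def DY (r : P → P → Prop) (w : P → ℤ) (C : Finset P) : Finset (Finset P) :=
  (Y0 r w C).powerset.filter (fun T => ∀ x ∈ C, Lo r C x → x ∉ X0 r w C →
    ∃ y ∈ C \ T, r x y ∧ w y < w x)

omit ht hi hw hmC hm hh in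
theorem mem_DB {I : Finset P} : I ∈ DB r w C ↔ I ⊆ X0 r w C ∧
    ∀ y ∈ C, Hi r C y → y ∉ Y0 r w C → ∃ x ∈ C \ I, r x y ∧ w x < w y := by
  classical
  rw [DB, Finset.mem_filter, Finset.mem_powerset]

omit ht hi hw hmC hm hh in
theorem mem_DY {T : Finset P} : T ∈ DY r w C ↔ T ⊆ Y0 r w C ∧
    ∀ x ∈ C, Lo r C x → x ∉ X0 r w C → ∃ y ∈ C \ T, r x y ∧ w y < w x := by
  classical
  rw [DY, Finset.mem_filter, Finset.mem_powerset]

section B2
variable {I W : Finset P} (hIC : I ⊆ C) (hId : ∀ a ∈ C, ∀ b ∈ I, r a b → a ∈ I)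
  (hWC : W ⊆ C) (hWI : ∀ x ∈ W, x ∉ I) (hWd : ∀ a ∈ C, a ∉ I → ∀ b ∈ W, r a b → a ∈ W)
  (hiso : ∀ x ∈ C, Lo r C x ∨ Hi r C x)
include hIC hId hWC hWI hWd hiso

/-- optimality in the second phase -/
theorem B_opt : F1s r w W ∪ F2s r w W = insert m C \ NB r w C m →
    I ∈ DB r w C ∧ (C \ I) \ W ∈ DY r w C := by
  intro he
  have hmem : ∀ x, x ∈ C → x ∉ X0 r w C → x ∉ Y0 r w C →
      x ∈ W ∧ ((∃ y ∈ W, r x y ∧ w y < w x) ∨ ∃ y ∈ W, r y x ∧ w y < w x) := by
    intro x hx h1 h2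
    have h3 : x ∈ F1s r w W ∪ F2s r w W := by
      rw [he, Finset.mem_sdiff, mem_NB]
      refine ⟨Finset.mem_insert_of_mem hx, ?_⟩
      rintro (h | h | h)
      · exact hmC (h ▸ hx)
      · exact h1 h
      · exact h2 h
    rw [Finset.mem_union, mem_F1s, mem_F2s] at h3
    rcases h3 with h3 | h3
    · exact ⟨h3.1, Or.inl ((B_F1 hh hWC h3.1).mp h3.2)⟩
    · exact ⟨h3.1, Or.inr ((B_F2 hh hWC h3.1).mp h3.2)⟩
  have hlow : ∀ x, x ∈ C → Lo r C x → x ∉ X0 r w C →
      x ∈ W ∧ ∃ y ∈ W, r x y ∧ w y < w x := by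
    intro x hx hlo h1
    obtain ⟨h2, h3⟩ := hmem x hx h1 (fun h => not_Lo_Hi hh hx hlo (mem_Y0.mp h).2.1)
    refine ⟨h2, ?_⟩
    rcases h3 with h3 | ⟨y, hy, hyx, -⟩
    · exact h3
    · exact absurd hlo (fun h => not_Lo_Hi hh hx h ⟨y, hWC hy, hyx⟩)
  have hhigh : ∀ y, y ∈ C → Hi r C y → y ∉ Y0 r w C →
      y ∈ W ∧ ∃ x ∈ W, r x y ∧ w x < w y := by
    intro y hy hhi h1
    obtain ⟨h2, h3⟩ := hmem y hy (fun h => not_Lo_Hi hh hy (mem_X0.mp h).2.1 hhi) h1
    refine ⟨h2, ?_⟩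
    rcases h3 with ⟨z, hz, hyz, -⟩ | h3
    · exact absurd hhi (fun h => not_Lo_Hi hh hy ⟨z, hWC hz, hyz⟩ h)
    · exact h3
  constructor
  · rw [mem_DB]
    constructor
    · intro x hx
      rcases hiso x (hIC hx) with hlo | hhi
      · by_contra h
        exact hWI x (hlow x (hIC hx) hlo h).1 hx
      · exfalso
        by_cases hY : x ∈ Y0 r w C
        · obtain ⟨z, hz, hzx⟩ := hhi
          have hzI := hId z hz x hx hzx
          have hlt := (mem_Y0.mp hY).2.2 z hz hzx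
          have hz0 : z ∉ X0 r w C := fun h => by
            have := (mem_X0.mp h).2.2 x (hIC hx) hzx
            omega
          exact hWI z (hlow z hz ⟨x, hIC hx, hzx⟩ hz0).1 hzI
        · exact hWI x (hhigh x (hIC hx) hhi hY).1 hx
    · intro y hy hhi hY
      obtain ⟨-, x, hx, hxy, hlt⟩ := hhigh y hy hhi hY
      exact ⟨x, Finset.mem_sdiff.mpr ⟨hWC hx, hWI x hx⟩, hxy, hlt⟩
  · rw [mem_DY]
    constructor
    · intro x hx
      rw [Finset.mem_sdiff, Finset.mem_sdiff] at hx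
      obtain ⟨⟨hxC, hxI⟩, hxW⟩ := hx
      rcases hiso x hxC with hlo | hhi
      · exfalso
        by_cases h0 : x ∈ X0 r w C
        · obtain ⟨y, hy, hxy⟩ := hlo
          have hyI := up_notMem hId hxC hxI hxy
          have hlt := (mem_X0.mp h0).2.2 y hy hxy
          have hyY : y ∉ Y0 r w C := fun h => by
            have := (mem_Y0.mp h).2.2 x hxC hxy
            omega
          exact hxW (hWd x hxC hxI y (hhigh y hy ⟨x, hxC, hxy⟩ hyY).1 hxy)
        · exact hxW (hlow x hxC hlo h0).1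
      · by_contra h
        exact hxW (hhigh x hxC hhi h).1
    · intro x hx hlo h0
      obtain ⟨-, y, hy, hxy, hlt⟩ := hlow x hx hlo h0
      refine ⟨y, ?_, hxy, hlt⟩
      rw [Finset.mem_sdiff, Finset.mem_sdiff]
      exact ⟨hWC hy, fun h => h.2 hy⟩

end B2

section B3
variable {I T : Finset P} (hI : I ∈ DB r w C) (hT : T ∈ DY r w C)
  (hiso : ∀ x ∈ C, Lo r C x ∨ Hi r C x)
include hI hT hiso

omit ht hi hw hmC hm hiso in
theorem B_disj2 : Disjoint I T := by
  rw [mem_DB] at hI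
  rw [mem_DY] at hT
  rw [Finset.disjoint_left]
  intro x hx hx'
  have h1 := mem_X0.mp (hI.1 hx)
  have h2 := mem_Y0.mp (hT.1 hx')
  exact not_Lo_Hi hh h1.1 h1.2.1 h2.2.1

omit ht hi hw hmC hm hT hiso in
theorem B_down : I ⊆ C ∧ ∀ a ∈ C, ∀ b ∈ I, r a b → a ∈ I := by
  rw [mem_DB] at hI
  refine ⟨fun x hx => (mem_X0.mp (hI.1 hx)).1, fun a ha b hb hab => ?_⟩
  have h1 := mem_X0.mp (hI.1 hb)
  exact absurd h1.2.1 (fun h => not_Lo_Hi hh h1.1 h ⟨a, ha, hab⟩)

omit ht hi hw hmC hm hI hiso in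
theorem B_down2 : ∀ a ∈ C, a ∉ I → ∀ b ∈ (C \ I) \ T, r a b → a ∈ (C \ I) \ T := by
  rw [mem_DY] at hT
  intro a ha haI b hb hab
  rw [Finset.mem_sdiff, Finset.mem_sdiff] at hb ⊢
  refine ⟨⟨ha, haI⟩, fun haT => ?_⟩
  have h1 := mem_Y0.mp (hT.1 haT)
  exact not_Lo_Hi hh ha ⟨b, hb.1.1, hab⟩ h1.2.1

/-- the pairs of faces are optimal -/
theorem B_opt' : F1s r w ((C \ I) \ T) ∪ F2s r w ((C \ I) \ T) =
    insert m C \ NB r w C m := by
  have hWC : (C \ I) \ T ⊆ C := Finset.sdiff_subset.trans Finset.sdiff_subset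
  apply Finset.Subset.antisymm (B_sub' hmC hh hWC)
  intro x hx
  rw [Finset.mem_sdiff, mem_NB] at hx
  push Not at hx
  obtain ⟨h1, hxm, h0, hY⟩ := hx
  have hxC : x ∈ C := (Finset.mem_insert.mp h1).resolve_left hxm
  have hI' := mem_DB.mp hI
  have hT' := mem_DY.mp hT
  have hxW : x ∈ (C \ I) \ T := by
    rw [Finset.mem_sdiff, Finset.mem_sdiff]
    exact ⟨⟨hxC, fun h => h0 (hI'.1 h)⟩, fun h => hY (hT'.1 h)⟩
  rw [Finset.mem_union, mem_F1s, mem_F2s]
  rcases hiso x hxC with hlo | hhi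
  · left
    refine ⟨hxW, (B_F1 hh hWC hxW).mpr ?_⟩
    obtain ⟨y, hy, hxy, hlt⟩ := hT'.2 x hxC hlo h0
    rw [Finset.mem_sdiff] at hy
    refine ⟨y, ?_, hxy, hlt⟩
    rw [Finset.mem_sdiff, Finset.mem_sdiff]
    refine ⟨⟨hy.1, fun h => ?_⟩, hy.2⟩
    exact not_Lo_Hi hh hy.1 (mem_X0.mp (hI'.1 h)).2.1 ⟨x, hxC, hxy⟩
  · right
    refine ⟨hxW, (B_F2 hh hWC hxW).mpr ?_⟩
    obtain ⟨y, hy, hyx, hlt⟩ := hI'.2 x hxC hhi hY
    refine ⟨y, ?_, hyx, hlt⟩
    rw [Finset.mem_sdiff]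
    refine ⟨hy, fun h => ?_⟩
    exact not_Lo_Hi hh (Finset.mem_sdiff.mp hy).1 ⟨x, hxC, hyx⟩ (mem_Y0.mp (hT'.1 h)).2.1

end B3

open Classical in
/-- the constant set of elements forced on the second letter in the second phase -/
noncomputable def ZB (r : P → P → Prop) (w : P → ℤ) (C : Finset P) : Finset P :=
  C.filter (fun y => Hi r C y ∧ y ∉ Y0 r w C)

theorem B_F2s {W : Finset P} (hWC : W ⊆ C)
    (he : F1s r w W ∪ F2s r w W = insert m C \ NB r w C m) : F2s r w W = ZB r w C := by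
  classical
  ext x
  rw [mem_F2s, ZB, Finset.mem_filter]
  constructor
  · rintro ⟨hxW, hF⟩
    rw [B_F2 hh hWC hxW] at hF
    obtain ⟨y, hy, hyx, hlt⟩ := hF
    refine ⟨hWC hxW, ⟨y, hWC hy, hyx⟩, fun h => ?_⟩
    have := (mem_Y0.mp h).2.2 y (hWC hy) hyx
    omega
  · rintro ⟨hxC, hhi, hY⟩
    have h3 : x ∈ F1s r w W ∪ F2s r w W := by
      rw [he, Finset.mem_sdiff, mem_NB]
      refine ⟨Finset.mem_insert_of_mem hxC, ?_⟩
      rintro (h | h | h)
      · exact hmC (h ▸ hxC)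
      · exact not_Lo_Hi hh hxC (mem_X0.mp h).2.1 hhi
      · exact hY h
    rw [Finset.mem_union, mem_F1s, mem_F2s] at h3
    rcases h3 with h3 | h3
    · rw [B_F1 hh hWC h3.1] at h3
      obtain ⟨-, y, hy, hxy, -⟩ := h3
      exact absurd hhi (fun h => not_Lo_Hi hh hxC ⟨y, hWC hy, hxy⟩ h)
    · exact h3

end h3

end Pool.Agent.Lib.MP_5bc52d_co.Key
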