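import Mathlib
import Pool.Agent.Lib.MP_5bc52d_co.H3.Comb

/-!
# Height three: the leading coefficient
-/

open Finset Polynomial

set_option linter.unusedSectionVars false

namespace Pool.Agent.Lib.MP_5bc52d_co.Key

open Splitting Cyc Cut

section
variable {P : Type*} [Fintype P] [DecidableEq P] {r : P → P → Prop} {v : Bool → P → ℤ}
  {C : Finset P} {m : P} {c : Bool}

open Classical in
/-- the value of the last letter -/
noncomputable def n3 (r : P → P → Prop) (v : Bool → P → ℤ) (d : Bool) (β : ℚ) (F : Finset P) :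
    ℚ := if Wk r (v d) F F then β ^ F.card else 0

theorem NL_last (d : Bool) (β : ℚ) (F : Finset P) :
    NL r v [(d, (Polynomial.C β : ℚ[X]))] F = Polynomial.C (n3 r v d β F) := by
  classical
  rw [NL_single, n3]
  split_ifs
  · rw [Polynomial.C_pow]
  · rw [Polynomial.C_0]

variable (ht : ∀ x y z, r x y → r y z → r x z) (hi : ∀ x, ¬ r x x)
  (hv : ∀ c p, v (!c) p = - v c p) (hw : ∀ x y, r x y → v c x ≠ v c y)
  (hmC : m ∉ C) (hm : ∀ p ∈ C, r p m)
  (hh : ∀ x ∈ C, ∀ y ∈ C, ∀ z ∈ C, r x y → ¬ r y z)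
  (hiso : ∀ x ∈ C, Lo r C x ∨ Hi r C x)
include ht hv hw

theorem coeff_l2 {W : Finset P} {D : ℕ} (hle : (F1s r (v c) W ∪ F2s r (v c) W).card ≤ D)
    (hV : Vd r (v c) W) :
    (NL r v [(!c, (X : ℚ[X])), (c, 1 - X)] W).coeff D =
      if (F1s r (v c) W ∪ F2s r (v c) W).card = D then (-1) ^ (F2s r (v c) W).card else 0 := by
  classical
  have hdis : Disjoint (F1s r (v c) W) (F2s r (v c) W) := by
    rw [Finset.disjoint_left]
    intro x h1 h2
    rw [mem_F1s] at h1
    rw [mem_F2s] at h2
    exact hV x h1.1 ⟨h1.2, h2.2⟩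
  rw [NL_pair ht hv c (by ring), if_pos ((PlP_iff hw).mpr hV), F1s_eq hw, F2s_eq hw]
  rw [Finset.card_union_of_disjoint hdis] at hle ⊢
  exact coeff_pair hle

theorem coeff_l2' {W : Finset P} {D : ℕ} (hV : ¬ Vd r (v c) W) :
    (NL r v [(!c, (X : ℚ[X])), (c, 1 - X)] W).coeff D = 0 := by
  classical
  rw [NL_pair ht hv c (by ring), if_neg (fun h => hV ((PlP_iff hw).mp h)), coeff_zero]

include hi hmC hm hh hiso

open Classical in
theorem coeff_A {I : Finset P} (hIC : I ⊆ C) (hId : ∀ a ∈ C, ∀ b ∈ I, r a b → a ∈ I) {D : ℕ}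
    (hD : (insert m C \ NA r (v c) C m).card ≤ D) :
    (NL r v [(!c, (X : ℚ[X])), (c, 1 - X)] (insert m (C \ I))).coeff D =
      if (insert m C \ NA r (v c) C m).card = D ∧ OA r (v c) C m I then
        (-1) ^ (ZA r (v c) C m).card else 0 := by
  by_cases hX : X1 r (v c) C m ⊆ I
  · have hV := (A_valid ht hi hw hmC hm hh hIC hId).mpr hX
    have hsub := A_sub ht hi hw hmC hm hh hIC hId hX
    have hle := Finset.card_le_card hsub
    rw [coeff_l2 ht hv hw (hle.trans hD) hV]
    by_cases hO : OA r (v c) C m I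
    · have he := (A_eq ht hi hw hmC hm hh hIC hId hX hiso).mpr hO
      rw [he, A_F2s ht hi hw hmC hm hh hIC hId hX hiso hO]
      by_cases h1 : (insert m C \ NA r (v c) C m).card = D
      · rw [if_pos h1, if_pos ⟨h1, hO⟩]
      · rw [if_neg h1, if_neg (fun h => h1 h.1)]
    · rw [if_neg (fun h : (insert m C \ NA r (v c) C m).card = D ∧ OA r (v c) C m I => hO h.2),
        if_neg]
      intro h1
      apply hO
      rw [← A_eq ht hi hw hmC hm hh hIC hId hX hiso]
      exact Finset.eq_of_subset_of_card_le hsub (by omega)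
  · have hV : ¬ Vd r (v c) (insert m (C \ I)) := fun h =>
      hX ((A_valid ht hi hw hmC hm hh hIC hId).mp h)
    rw [coeff_l2' ht hv hw hV, if_neg (fun h => hX h.2.1)]

open Classical in
theorem coeff_B {I W : Finset P} (hIC : I ⊆ C) (hId : ∀ a ∈ C, ∀ b ∈ I, r a b → a ∈ I)
    (hWC : W ⊆ C) (hWI : ∀ x ∈ W, x ∉ I) (hWd : ∀ a ∈ C, a ∉ I → ∀ b ∈ W, r a b → a ∈ W)
    {D : ℕ} (hD : (insert m C \ NB r (v c) C m).card ≤ D) :
    (NL r v [(!c, (X : ℚ[X])), (c, 1 - X)] W).coeff D =
      if (insert m C \ NB r (v c) C m).card = D ∧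
        (I ∈ DB r (v c) C ∧ (C \ I) \ W ∈ DY r (v c) C) then
        (-1) ^ (ZB r (v c) C).card else 0 := by
  have hV := B_valid (w := v c) hh hWC
  have hsub := B_sub' (w := v c) hmC hh hWC
  have hle := Finset.card_le_card hsub
  rw [coeff_l2 ht hv hw (hle.trans hD) hV]
  by_cases hO : I ∈ DB r (v c) C ∧ (C \ I) \ W ∈ DY r (v c) C
  · have he := B_opt' ht hi hw hmC hm hh hO.1 hO.2 hiso
    have h2 : (C \ I) \ ((C \ I) \ W) = W := by
      rw [Finset.sdiff_sdiff_eq_self]
      intro x hx
      exact Finset.mem_sdiff.mpr ⟨hWC hx, hWI x hx⟩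
    rw [h2] at he
    rw [he, B_F2s ht hi hw hmC hm hh hWC he]
    by_cases h1 : (insert m C \ NB r (v c) C m).card = D
    · rw [if_pos h1, if_pos ⟨h1, hO⟩]
    · rw [if_neg h1, if_neg (fun h => h1 h.1)]
  · rw [if_neg (fun h : (insert m C \ NB r (v c) C m).card = D ∧
        (I ∈ DB r (v c) C ∧ (C \ I) \ W ∈ DY r (v c) C) => hO h.2), if_neg]
    intro h1
    apply hO
    exact B_opt ht hi hw hmC hm hh hIC hId hWC hWI hWd hiso
      (Finset.eq_of_subset_of_card_le hsub (by omega))

open Classical in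
/-- the optimal sets of the first phase -/
noncomputable def OAs (r : P → P → Prop) (w : P → ℤ) (C : Finset P) (m : P) :
    Finset (Finset P) :=
  C.powerset.filter (fun I => (∀ a ∈ C, ∀ b ∈ I, r a b → a ∈ I) ∧ OA r w C m I)

omit ht hi hv hw hmC hm hh hiso in
theorem mem_OAs {w : P → ℤ} {I : Finset P} : I ∈ OAs r w C m ↔
    I ⊆ C ∧ (∀ a ∈ C, ∀ b ∈ I, r a b → a ∈ I) ∧ OA r w C m I := by
  classical
  rw [OAs, Finset.mem_filter, Finset.mem_powerset]

omit hv hw hmC hh hiso in
theorem mem_dn_top {I : Finset P} : I ∈ (dn r (insert m C)).erase (insert m C) ↔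
    (I ⊆ C ∧ ∀ a ∈ C, ∀ b ∈ I, r a b → a ∈ I) := by
  rw [Finset.mem_erase, mem_dn]
  constructor
  · rintro ⟨hne, hI, hd⟩
    have hmI : m ∉ I := by
      intro h
      apply hne
      apply Finset.Subset.antisymm hI
      intro x hx
      rcases Finset.mem_insert.mp hx with h1 | h1
      · exact h1 ▸ h
      · exact hd x hx m h (hm x h1)
    refine ⟨fun x hx => ?_, fun a ha b hb hab => hd a (Finset.mem_insert_of_mem ha) b hb hab⟩
    rcases Finset.mem_insert.mp (hI hx) with h1 | h1
    · exact absurd (h1 ▸ hx) hmI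
    · exact h1
  · rintro ⟨hI, hd⟩
    refine ⟨fun h => ?_, hI.trans (Finset.subset_insert m C), fun a ha b hb hab => ?_⟩
    · have h1 : m ∈ I := h ▸ Finset.mem_insert_self m C
      exact hi m (hm m (hI h1))
    · rcases Finset.mem_insert.mp ha with h1 | h1
      · subst h1
        exact absurd (ht _ _ _ hab (hm b (hI hb))) (hi a)
      · exact hd a h1 b hb hab

/-- the identity between the two phases -/
theorem main_id {l1 : List (Bool × ℚ[X])} {n1 : Finset P → ℚ}
    (hn1 : ∀ I, NL r v l1 I = Polynomial.C (n1 I)) (d : Bool) (β : ℚ) {D : ℕ}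
    (hDA : (insert m C \ NA r (v c) C m).card ≤ D)
    (hDB : (insert m C \ NB r (v c) C m).card ≤ D)
    (h0 : NL r v (l1 ++ ([(!c, (X : ℚ[X])), (c, 1 - X)] ++ [(d, Polynomial.C β)]))
      (insert m C) = 0) :
    (if (insert m C \ NA r (v c) C m).card = D then
        (-1) ^ (ZA r (v c) C m).card * ∑ I ∈ OAs r (v c) C m, n1 I else 0) +
      (if (insert m C \ NB r (v c) C m).card = D then
        (-1) ^ (ZB r (v c) C).card * ∑ I ∈ DB r (v c) C, ∑ T ∈ DY r (v c) C,
          n1 I * n3 r v d β (insert m T) else 0) = 0 := by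
  classical
  have hmNA : m ∉ NA r (v c) C m := by
    rw [mem_NA]
    rintro (h2 | h2 | h2)
    · exact hmC (mem_X1.mp h2).1
    · exact hmC (mem_X0.mp h2).1
    · exact hmC (mem_Y1.mp h2).1
  have hD1 : 1 ≤ D := by
    refine le_trans ?_ hDA
    rw [Nat.one_le_iff_ne_zero, ← Nat.pos_iff_ne_zero, Finset.card_pos]
    exact ⟨m, Finset.mem_sdiff.mpr ⟨Finset.mem_insert_self m C, hmNA⟩⟩
  -- the coefficient as a double sum
  have h1 := congrArg (fun p : ℚ[X] => p.coeff D) h0
  simp only [coeff_zero] at h1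
  rw [NL_append, finsetSum_coeff] at h1
  have h2 : ∀ I ∈ dn r (insert m C), (NL r v l1 I *
      NL r v ([(!c, (X : ℚ[X])), (c, 1 - X)] ++ [(d, Polynomial.C β)])
        (insert m C \ I)).coeff D =
      ∑ W ∈ dn r (insert m C \ I), n1 I *
        ((NL r v [(!c, (X : ℚ[X])), (c, 1 - X)] W).coeff D *
          n3 r v d β ((insert m C \ I) \ W)) := by
    intro I _
    rw [hn1, coeff_C_mul, NL_append, finsetSum_coeff, Finset.mul_sum]
    apply Finset.sum_congr rfl
    intro W _
    rw [NL_last, coeff_mul_C]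
  rw [Finset.sum_congr rfl h2] at h1
  have hUmem : insert m C ∈ dn r (insert m C) :=
    mem_dn.mpr ⟨Finset.Subset.refl _, fun a ha _ _ _ => ha⟩
  rw [← Finset.add_sum_erase _ _ hUmem] at h1
  -- the term with everything on the left vanishes
  have h3 : ∑ W ∈ dn r (insert m C \ insert m C), n1 (insert m C) *
      ((NL r v [(!c, (X : ℚ[X])), (c, 1 - X)] W).coeff D *
        n3 r v d β ((insert m C \ insert m C) \ W)) = 0 := by
    apply Finset.sum_eq_zero
    intro W hW
    have hW' : W = ∅ := by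
      have := (mem_dn.mp hW).1
      rw [Finset.sdiff_self] at this
      exact Finset.subset_empty.mp this
    rw [hW', NL_empty, coeff_one, if_neg (by omega), zero_mul, mul_zero]
  rw [h3, zero_add] at h1
  -- the other terms
  have h4 : ∀ I ∈ (dn r (insert m C)).erase (insert m C),
      ∑ W ∈ dn r (insert m C \ I), n1 I *
        ((NL r v [(!c, (X : ℚ[X])), (c, 1 - X)] W).coeff D *
          n3 r v d β ((insert m C \ I) \ W)) =
      n1 I * (if (insert m C \ NA r (v c) C m).card = D ∧ OA r (v c) C m I then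
        (-1) ^ (ZA r (v c) C m).card else 0) +
      (if (insert m C \ NB r (v c) C m).card = D ∧ I ∈ DB r (v c) C then
        (-1) ^ (ZB r (v c) C).card * ∑ T ∈ DY r (v c) C,
          n1 I * n3 r v d β (insert m T) else 0) := by
    intro I hI
    rw [mem_dn_top ht hi hm] at hI
    obtain ⟨hIC, hId⟩ := hI
    have hmI : m ∉ I := fun h => hmC (hIC h)
    have e1 : insert m C \ I = insert m (C \ I) := Finset.insert_sdiff_of_notMem _ hmI
    have hmCI : m ∉ C \ I := fun h => hmC (Finset.mem_sdiff.mp h).1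
    have hmCI' : ∀ p ∈ C \ I, r p m := fun p hp => hm p (Finset.mem_sdiff.mp hp).1
    rw [e1]
    have hUmem' : insert m (C \ I) ∈ dn r (insert m (C \ I)) :=
      mem_dn.mpr ⟨Finset.Subset.refl _, fun a ha _ _ _ => ha⟩
    rw [← Finset.add_sum_erase _ _ hUmem']
    congr 1
    · rw [coeff_A ht hi hv hw hmC hm hh hiso hIC hId hDA, Finset.sdiff_self]
      have h5 : n3 r v d β (∅ : Finset P) = 1 := by
        rw [n3, if_pos ⟨Finset.Subset.refl _, fun a ha => absurd ha (Finset.notMem_empty a)⟩,
          Finset.card_empty, pow_zero]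
      rw [h5, mul_one]
    · have h5 : ∀ W ∈ (dn r (insert m (C \ I))).erase (insert m (C \ I)),
          n1 I * ((NL r v [(!c, (X : ℚ[X])), (c, 1 - X)] W).coeff D *
            n3 r v d β (insert m (C \ I) \ W)) =
          if (insert m C \ NB r (v c) C m).card = D ∧
            (I ∈ DB r (v c) C ∧ (C \ I) \ W ∈ DY r (v c) C) then
            (-1) ^ (ZB r (v c) C).card * (n1 I * n3 r v d β (insert m ((C \ I) \ W)))
          else 0 := by
        intro W hW
        rw [mem_dn_top ht hi hmCI'] at hW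
        obtain ⟨hWC, hWd⟩ := hW
        have hmW : m ∉ W := fun h => hmCI (hWC h)
        rw [coeff_B ht hi hv hw hmC hm hh hiso hIC hId (hWC.trans Finset.sdiff_subset)
          (fun x hx => (Finset.mem_sdiff.mp (hWC hx)).2)
          (fun a ha haI b hb hab => hWd a (Finset.mem_sdiff.mpr ⟨ha, haI⟩) b hb hab) hDB,
          Finset.insert_sdiff_of_notMem _ hmW]
        split_ifs with h6
        · ring
        · ring
      rw [Finset.sum_congr rfl h5]
      by_cases h6 : (insert m C \ NB r (v c) C m).card = D ∧ I ∈ DB r (v c) C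
      · rw [if_pos h6, Finset.mul_sum]
        refine Finset.sum_bij_ne_zero (fun W _ _ => (C \ I) \ W) ?_ ?_ ?_ ?_
        · intro W hW hne
          have h7 : (C \ I) \ W ∈ DY r (v c) C := by
            by_contra h8
            exact hne (if_neg (fun h => h8 h.2.2))
          exact h7
        · intro W hW _ W' hW' _ he
          rw [mem_dn_top ht hi hmCI'] at hW hW'
          rw [← Finset.sdiff_sdiff_eq_self hW.1, ← Finset.sdiff_sdiff_eq_self hW'.1, he]
        · intro T hT hne
          have hTC : T ⊆ C \ I := by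
            intro x hx
            refine Finset.mem_sdiff.mpr ⟨(mem_Y0.mp ((mem_DY.mp hT).1 hx)).1, fun h => ?_⟩
            exact Finset.disjoint_left.mp (B_disj2 hh h6.2 hT) h hx
          have e2 : (C \ I) \ ((C \ I) \ T) = T := Finset.sdiff_sdiff_eq_self hTC
          refine ⟨(C \ I) \ T, ?_, ?_, e2⟩
          · rw [mem_dn_top ht hi hmCI']
            refine ⟨Finset.sdiff_subset, fun a ha b hb hab => ?_⟩
            rw [Finset.mem_sdiff] at ha
            exact B_down2 hh hT a ha.1 ha.2 b hb hab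
          · rw [e2, if_pos ⟨h6.1, h6.2, hT⟩]
            exact hne
        · intro W hW hne
          have h7 : (C \ I) \ W ∈ DY r (v c) C := by
            by_contra h8
            exact hne (if_neg (fun h => h8 h.2.2))
          rw [if_pos ⟨h6.1, h6.2, h7⟩]
      · rw [if_neg h6]
        apply Finset.sum_eq_zero
        intro W _
        rw [if_neg]
        rintro ⟨h7, h8, -⟩
        exact h6 ⟨h7, h8⟩
  rw [Finset.sum_congr rfl h4, Finset.sum_add_distrib] at h1
  refine Eq.trans ?_ h1
  congr 1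
  · by_cases h5 : (insert m C \ NA r (v c) C m).card = D
    · rw [if_pos h5, Finset.mul_sum]
      simp only [h5, true_and, mul_ite, mul_zero]
      rw [← Finset.sum_filter]
      apply Finset.sum_congr
      · ext I
        rw [mem_OAs, Finset.mem_filter, mem_dn_top ht hi hm]
        tauto
      · intro I _
        ring
    · rw [if_neg h5]
      symm
      apply Finset.sum_eq_zero
      intro I _
      rw [if_neg (fun h => h5 h.1), mul_zero]
  · by_cases h5 : (insert m C \ NB r (v c) C m).card = D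
    · rw [if_pos h5, Finset.mul_sum]
      simp only [h5, true_and]
      rw [← Finset.sum_filter]
      apply Finset.sum_congr
      · ext I
        rw [Finset.mem_filter, mem_dn_top ht hi hm]
        constructor
        · intro h
          exact ⟨B_down hh h, h⟩
        · exact fun h => h.2
      · intro I _
        rfl
    · rw [if_neg h5]
      symm
      apply Finset.sum_eq_zero
      intro I _
      rw [if_neg (fun h => h5 h.1)]

end

end Pool.Agent.Lib.MP_5bc52d_co.Key
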