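import Mathlib
import Pool.Agent.Lib.MP_5bc52d_co.H3.Ident

/-!
# Height three: comparison of degrees and orders
-/

open Finset Polynomial

set_option linter.unusedSectionVars false

namespace Pool.Agent.Lib.MP_5bc52d_co.Key

open Splitting Cyc Cut

section sp
variable {P : Type*} [Fintype P] [DecidableEq P]

/-- the counting polynomial of a family -/
noncomputable def Sp (F : Finset (Finset P)) (ν : Finset P → ℕ) : ℚ[X] :=
  ∑ I ∈ F, Polynomial.C (ν I : ℚ) * X ^ I.card

theorem Sp_coeff (F : Finset (Finset P)) (ν : Finset P → ℕ) (k : ℕ) :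
    (Sp F ν).coeff k = ((∑ I ∈ F with I.card = k, ν I : ℕ) : ℚ) := by
  rw [Sp, finsetSum_coeff, Nat.cast_sum, Finset.sum_filter]
  apply Finset.sum_congr rfl
  intro I _
  rw [coeff_C_mul_X_pow]
  by_cases h : k = I.card
  · rw [if_pos h, if_pos h.symm]
  · rw [if_neg h, if_neg (fun h' => h h'.symm)]

theorem Sp_coeff_pos {F : Finset (Finset P)} {ν : Finset P → ℕ} {I : Finset P} (hI : I ∈ F)
    (hν : 0 < ν I) : (Sp F ν).coeff I.card ≠ 0 := by
  rw [Sp_coeff, Ne, Nat.cast_eq_zero]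
  intro h
  have h1 := Finset.sum_eq_zero_iff.mp h I (Finset.mem_filter.mpr ⟨hI, rfl⟩)
  omega

theorem Sp_le {F : Finset (Finset P)} {ν : Finset P → ℕ} {I : Finset P} (hI : I ∈ F)
    (hν : 0 < ν I) : I.card ≤ (Sp F ν).natDegree :=
  le_natDegree_of_ne_zero (Sp_coeff_pos hI hν)

theorem Sp_exists {F : Finset (Finset P)} {ν : Finset P → ℕ} {k : ℕ}
    (h : (Sp F ν).coeff k ≠ 0) : ∃ I ∈ F, I.card = k ∧ 0 < ν I := by
  rw [Sp_coeff, Ne, Nat.cast_eq_zero] at h
  by_contra hcon
  push Not at hcon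
  apply h
  apply Finset.sum_eq_zero
  intro I hI
  rw [Finset.mem_filter] at hI
  have := hcon I hI.1 hI.2
  omega

theorem Sp_eval (F : Finset (Finset P)) (ν : Finset P → ℕ) (α : ℚ) :
    (Sp F ν).eval α = ∑ I ∈ F, (ν I : ℚ) * α ^ I.card := by
  rw [Sp, eval_finsetSum]
  apply Finset.sum_congr rfl
  intro I _
  rw [eval_mul, eval_C, eval_pow, eval_X]

end sp

section
variable {P : Type*} [Fintype P] [DecidableEq P] {r : P → P → Prop} {v : Bool → P → ℤ}
  {C : Finset P} {m : P} {c : Bool}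

open Classical in
/-- the polynomial of the right faces -/
noncomputable def psi (r : P → P → Prop) (v : Bool → P → ℤ) (c d : Bool) (C : Finset P)
    (m : P) : ℚ[X] :=
  ∑ T ∈ DY r (v c) C, if Wk r (v d) (insert m T) (insert m T) then X ^ (insert m T).card else 0

theorem psi_eval (d : Bool) (β : ℚ) :
    (psi r v c d C m).eval β = ∑ T ∈ DY r (v c) C, n3 r v d β (insert m T) := by
  classical
  rw [psi, eval_finsetSum]
  apply Finset.sum_congr rfl
  intro T _
  rw [n3]
  split_ifs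
  · rw [eval_pow, eval_X]
  · rw [eval_zero]

variable (ht : ∀ x y z, r x y → r y z → r x z) (hi : ∀ x, ¬ r x x)
  (hv : ∀ c p, v (!c) p = - v c p) (hw : ∀ x y, r x y → v c x ≠ v c y)
  (hmC : m ∉ C) (hm : ∀ p ∈ C, r p m)
  (hh : ∀ x ∈ C, ∀ y ∈ C, ∀ z ∈ C, r x y → ¬ r y z)
  (hiso : ∀ x ∈ C, Lo r C x ∨ Hi r C x)

section faces

include hw in
theorem empty_mem_DB : ∅ ∈ DB r (v c) C := by
  rw [mem_DB]
  refine ⟨Finset.empty_subset _, fun y hy hhi hY => ?_⟩
  by_contra hcon
  push Not at hcon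
  apply hY
  refine mem_Y0.mpr ⟨hy, hhi, fun x hx hxy => ?_⟩
  have h1 := hcon x (by rwa [Finset.sdiff_empty]) hxy
  have h2 := hw x y hxy
  omega

include hw in
theorem empty_mem_DY : ∅ ∈ DY r (v c) C := by
  rw [mem_DY]
  refine ⟨Finset.empty_subset _, fun x hx hlo h0 => ?_⟩
  by_contra hcon
  push Not at hcon
  apply h0
  refine mem_X0.mpr ⟨hx, hlo, fun y hy hxy => ?_⟩
  have h1 := hcon y (by rwa [Finset.sdiff_empty]) hxy
  have h2 := hw x y hxy
  omega

include hmC in
theorem DY_notMem {T : Finset P} (hT : T ∈ DY r (v c) C) : m ∉ T :=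
  fun h => hmC (mem_Y0.mp ((mem_DY.mp hT).1 h)).1

include hw hmC hi in
theorem psi_coeff_one (d : Bool) : (psi r v c d C m).coeff 1 = 1 := by
  classical
  rw [psi, finsetSum_coeff, Finset.sum_eq_single ∅]
  · rw [if_pos, insert_empty_eq, Finset.card_singleton, pow_one, coeff_X_one]
    refine ⟨Finset.Subset.refl _, fun a ha b hb hab => ?_⟩
    rw [insert_empty_eq, Finset.mem_singleton] at ha hb
    rw [ha, hb] at hab
    exact absurd hab (hi m)
  · intro T hT hne
    split_ifs
    · rw [Finset.card_insert_of_notMem (DY_notMem hmC hT), coeff_X_pow, if_neg]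
      have := Finset.card_pos.mpr (Finset.nonempty_iff_ne_empty.mpr hne)
      omega
    · rw [coeff_zero]
  · intro h
    exact absurd (empty_mem_DY hw) h

theorem psi_eval_zero (d : Bool) : (psi r v c d C m).eval 0 = 0 := by
  classical
  rw [psi, eval_finsetSum]
  apply Finset.sum_eq_zero
  intro T _
  split_ifs
  · rw [eval_pow, eval_X, zero_pow (Finset.card_ne_zero_of_mem (Finset.mem_insert_self m T))]
  · rw [eval_zero]

include hw hmC hi in
theorem psi_ne (d : Bool) : psi r v c d C m ≠ 0 := by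
  intro h
  have h1 := psi_coeff_one (C := C) hi hw hmC d
  rw [h, coeff_zero] at h1
  exact one_ne_zero h1.symm

include hh in
/-- no relation inside a left face -/
theorem DB_anti {I : Finset P} (hI : I ∈ DB r (v c) C) : ∀ a ∈ I, ∀ b ∈ I, ¬ r a b := by
  intro a ha b hb hab
  have h1 := mem_X0.mp ((mem_DB.mp hI).1 ha)
  have h2 := mem_X0.mp ((mem_DB.mp hI).1 hb)
  exact not_Lo_Hi hh h2.1 h2.2.1 ⟨a, h1.1, hab⟩

include hh in
theorem X1_anti : ∀ a ∈ X1 r (v c) C m, ∀ b ∈ X1 r (v c) C m, ¬ r a b := by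
  intro a ha b hb hab
  obtain ⟨h1, -⟩ := mem_X1.mp ha
  obtain ⟨h2, y, hy, hby, -⟩ := mem_X1.mp hb
  exact not_Lo_Hi hh h2 ⟨y, hy, hby⟩ ⟨a, h1, hab⟩

include hh hmC hm hw in
theorem X1_mem (hY : ∃ y ∈ C, Hi r C y ∧ v c y < v c m) :
    X1 r (v c) C m ∈ OAs r (v c) C m := by
  rw [mem_OAs]
  have hX1Lo : ∀ x ∈ X1 r (v c) C m, Lo r C x := fun x hx => by
    obtain ⟨-, y, hy, hxy, -⟩ := mem_X1.mp hx
    exact ⟨y, hy, hxy⟩
  refine ⟨fun x hx => (mem_X1.mp hx).1, fun a ha b hb hab => ?_, Finset.Subset.refl _, ?_, ?_, ?_⟩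
  · exact absurd (hX1Lo b hb) (fun h => not_Lo_Hi hh (mem_X1.mp hb).1 h ⟨a, ha, hab⟩)
  · obtain ⟨y, hy, hhi, hlt⟩ := hY
    exact ⟨y, Finset.mem_sdiff.mpr ⟨hy, fun h => not_Lo_Hi hh hy (hX1Lo y h) hhi⟩, hhi, hlt⟩
  · intro x _ _ hN h
    exact hN (mem_NA.mpr (Or.inl h))
  · intro y hy hhi hN
    refine ⟨fun h => hN (mem_NA.mpr (Or.inl h)), ?_⟩
    by_contra hcon
    push Not at hcon
    apply hN
    rw [mem_NA]
    right; right
    have h1 := hw y m (hm y hy)
    refine mem_Y1.mpr ⟨hy, hhi, by omega, fun x hx hxy hlt => ?_⟩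
    by_contra h2
    have := hcon.2 x (Finset.mem_sdiff.mpr ⟨hx, h2⟩) hxy
    omega

end faces

include ht hi hv hw hmC hm hh hiso

/-- a prefix with parameter `α` -/
theorem prefix_id (hN : ∀ l : List (Bool × ℚ[X]), (l.map Prod.snd).sum = 0 →
      NL r v l (insert m C) = 0) {l1 : ℚ → List (Bool × ℚ[X])} {ν : Finset P → ℕ} {τ : ℚ}
    (hl1 : ∀ α I, NL r v (l1 α) I = Polynomial.C ((ν I : ℚ) * α ^ I.card))
    (hsum : ∀ α, ((l1 α).map Prod.snd).sum = Polynomial.C (τ * α)) (d : Bool) {D : ℕ}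
    (hDA : (insert m C \ NA r (v c) C m).card ≤ D)
    (hDB : (insert m C \ NB r (v c) C m).card ≤ D) :
    (if (insert m C \ NA r (v c) C m).card = D then
        (-1) ^ (ZA r (v c) C m).card * Sp (OAs r (v c) C m) ν else 0) +
      (if (insert m C \ NB r (v c) C m).card = D then
        (-1) ^ (ZB r (v c) C).card * (Sp (DB r (v c) C) ν *
          (psi r v c d C m).comp (-1 - Polynomial.C τ * X)) else 0) = 0 := by
  apply Polynomial.funext
  intro α
  rw [eval_zero]
  have h1 := main_id (c := c) ht hi hv hw hmC hm hh hiso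
    (l1 := l1 α) (n1 := fun I => (ν I : ℚ) * α ^ I.card) (hl1 α) d (-1 - τ * α) hDA hDB
    (hN _ (by
      rw [List.map_append, List.sum_append, hsum]
      simp only [List.map_append, List.map_cons, List.map_nil, List.sum_append, List.sum_cons,
        List.sum_nil, Polynomial.C_sub, Polynomial.C_neg, Polynomial.C_1]
      ring))
  rw [← h1, eval_add]
  congr 1
  · split_ifs
    · rw [eval_mul, eval_pow, eval_neg, eval_one, Sp_eval]
    · rw [eval_zero]
  · split_ifs
    · rw [eval_mul, eval_pow, eval_neg, eval_one, eval_mul, Sp_eval, eval_comp, eval_sub,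
        eval_neg, eval_one, eval_mul, eval_C, eval_X, psi_eval, Finset.sum_mul]
      congr 1
      apply Finset.sum_congr rfl
      intro I _
      rw [Finset.mul_sum]
    · rw [eval_zero]

end

section
variable {P : Type*} [Fintype P] [DecidableEq P] {r : P → P → Prop} {v : Bool → P → ℤ}
  {C : Finset P} {m : P}

open Classical in
/-- the prefix of one letter -/
theorem one_letter (e : Bool) (α : ℚ) (I : Finset P) :
    NL r v [(e, (Polynomial.C α : ℚ[X]))] I =
      Polynomial.C ((((if Wk r (v e) I I then 1 else 0 : ℕ)) : ℚ) * α ^ I.card) := by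
  rw [NL_last, n3]
  split_ifs
  · rw [Nat.cast_one, one_mul]
  · rw [Nat.cast_zero, zero_mul]

open Classical in
/-- the number of ways to place a set on the letters `true, false` -/
noncomputable def nu2 (r : P → P → Prop) (v : Bool → P → ℤ) (I : Finset P) : ℕ :=
  ((wks r (v true) I).filter (fun J => Wk r (v false) (I \ J) (I \ J))).card

theorem two_letter (α : ℚ) (I : Finset P) :
    NL r v [(true, (Polynomial.C α : ℚ[X])), (false, Polynomial.C α)] I =
      Polynomial.C ((nu2 r v I : ℚ) * α ^ I.card) := by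
  classical
  rw [NL, nu2, Finset.card_eq_sum_ones, Nat.cast_sum, Finset.sum_filter, Finset.sum_mul, map_sum]
  apply Finset.sum_congr rfl
  intro J hJ
  rw [NL_last, n3]
  have h1 : J.card + (I \ J).card = I.card := by
    rw [Finset.card_sdiff_of_subset (mem_wks.mp hJ).1]
    have := Finset.card_le_card (mem_wks.mp hJ).1
    omega
  split_ifs
  · rw [← h1, pow_add, Nat.cast_one, one_mul, Polynomial.C_mul, Polynomial.C_pow,
      Polynomial.C_pow]
  · simp

theorem nu2_pos (hh : ∀ x ∈ C, ∀ y ∈ C, ∀ z ∈ C, r x y → ¬ r y z) {I : Finset P}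
    (hIC : I ⊆ C) : 0 < nu2 r v I := by
  classical
  rw [nu2, Finset.card_pos]
  refine ⟨I.filter (fun x => ¬ Hi r C x), ?_⟩
  rw [Finset.mem_filter, mem_wks]
  refine ⟨⟨Finset.filter_subset _ _, fun a ha b hb hab => ?_⟩, Finset.Subset.refl _,
    fun a ha b hb hab => ?_⟩
  · exact absurd ⟨a, hIC ha, hab⟩ (Finset.mem_filter.mp hb).2
  · exfalso
    rw [Finset.mem_sdiff, Finset.mem_filter, not_and, not_not] at ha hb
    exact not_Lo_Hi hh (hIC ha.1) ⟨b, hIC hb.1, hab⟩ (ha.2 ha.1)

end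

section
variable {P : Type*} [Fintype P] [DecidableEq P] {r : P → P → Prop} {v : Bool → P → ℤ}
  {C : Finset P} {m : P} {c : Bool}
  (ht : ∀ x y z, r x y → r y z → r x z) (hi : ∀ x, ¬ r x x)
  (hv : ∀ c p, v (!c) p = - v c p) (hw : ∀ x y, r x y → v c x ≠ v c y)
  (hmC : m ∉ C) (hm : ∀ p ∈ C, r p m)
  (hh : ∀ x ∈ C, ∀ y ∈ C, ∀ z ∈ C, r x y → ¬ r y z)
  (hiso : ∀ x ∈ C, Lo r C x ∨ Hi r C x)
  (hY : ∃ y ∈ C, Hi r C y ∧ v c y < v c m)
include ht hi hv hw hmC hm hh hiso hY

theorem phases (hN : ∀ l : List (Bool × ℚ[X]), (l.map Prod.snd).sum = 0 →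
      NL r v l (insert m C) = 0) :
    (insert m C \ NA r (v c) C m).card = (insert m C \ NB r (v c) C m).card ∧
    ∃ K : ℕ, (∀ I ∈ OAs r (v c) C m, I.card ≤ K) ∧
      (∀ e, ∃ I ∈ OAs r (v c) C m, I.card = K ∧ Wk r (v e) I I) ∧
      ∃ I ∈ OAs r (v c) C m, I.card = K ∧ ∃ y ∈ I, Hi r C y := by
  classical
  set S := OAs r (v c) C m with hS
  set B := DB r (v c) C with hB
  set q := psi r v c true C m with hq
  have hq0 : q ≠ 0 := psi_ne hi hw hmC true
  have hX1S : X1 r (v c) C m ∈ S := X1_mem hw hmC hm hh hY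
  have hX1W : ∀ e, Wk r (v e) (X1 r (v c) C m) (X1 r (v c) C m) := fun e =>
    ⟨Finset.Subset.refl _, fun a ha b hb hab => absurd hab (X1_anti hh a ha b hb)⟩
  have hBW : ∀ e, ∀ I ∈ B, Wk r (v e) I I := fun e I hI =>
    ⟨Finset.Subset.refl _, fun a ha b hb hab => absurd hab (DB_anti hh hI a ha b hb)⟩
  -- the three weights
  set ν1 : Bool → Finset P → ℕ := fun e I => if Wk r (v e) I I then 1 else 0 with hν1
  set ν2 : Finset P → ℕ := nu2 r v with hν2
  have id1 : ∀ (e : Bool) (D : ℕ), (insert m C \ NA r (v c) C m).card ≤ D →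
      (insert m C \ NB r (v c) C m).card ≤ D → _ := fun e D hDA hDB =>
    prefix_id (c := c) (D := D) ht hi hv hw hmC hm hh hiso hN
      (l1 := fun α => [(e, (Polynomial.C α : ℚ[X]))]) (ν := ν1 e) (τ := 1)
      (fun α I => one_letter e α I) (fun α => by simp) true hDA hDB
  have id2 : ∀ (D : ℕ), (insert m C \ NA r (v c) C m).card ≤ D →
      (insert m C \ NB r (v c) C m).card ≤ D → _ := fun D hDA hDB =>
    prefix_id (c := c) (D := D) ht hi hv hw hmC hm hh hiso hN
      (l1 := fun α => [(true, (Polynomial.C α : ℚ[X])), (false, Polynomial.C α)]) (ν := ν2)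
      (τ := 2) (fun α I => two_letter α I) (fun α => by
        simp only [List.map_cons, List.map_nil, List.sum_cons, List.sum_nil, add_zero]
        rw [← Polynomial.C_add]
        congr 1
        ring) true hDA hDB
  have hB1 : ∀ e, (Sp B (ν1 e)).coeff 0 ≠ 0 := fun e => by
    have h1 := Sp_coeff_pos (F := B) (ν := ν1 e) (empty_mem_DB hw) (by
      rw [hν1]
      simp only
      rw [if_pos (hBW e ∅ (empty_mem_DB hw))]
      exact Nat.one_pos)
    rwa [Finset.card_empty] at h1
  have hqc : ∀ τ : ℚ, τ ≠ 0 → q.comp (-1 - Polynomial.C τ * X) ≠ 0 ∧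
      (q.comp (-1 - Polynomial.C τ * X)).natDegree = q.natDegree := by
    intro τ hτ
    have h1 : (-1 - Polynomial.C τ * X : ℚ[X]) = Polynomial.C (-τ) * X + Polynomial.C (-1) := by
      rw [Polynomial.C_neg, Polynomial.C_neg, Polynomial.C_1]
      ring
    have h2 : (-1 - Polynomial.C τ * X : ℚ[X]).natDegree = 1 := by
      rw [h1]
      exact natDegree_linear (neg_ne_zero.mpr hτ)
    refine ⟨?_, by rw [natDegree_comp, h2, mul_one]⟩
    intro h
    rw [comp_eq_zero_iff] at h
    rcases h with h | ⟨-, h⟩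
    · exact hq0 h
    · have h3 := congrArg Polynomial.natDegree h
      rw [h2, natDegree_C] at h3
      exact one_ne_zero h3
  have hpow : ∀ k : ℕ, ((-1 : ℚ[X]) ^ k) ≠ 0 := fun k => pow_ne_zero _ (neg_ne_zero.mpr one_ne_zero)
  -- the two depths agree
  have hab : (insert m C \ NA r (v c) C m).card = (insert m C \ NB r (v c) C m).card := by
    rcases lt_trichotomy (insert m C \ NA r (v c) C m).card
      (insert m C \ NB r (v c) C m).card with h | h | h
    · exfalso
      have h1 := id1 true _ h.le le_rfl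
      rw [if_neg h.ne, if_pos rfl, zero_add] at h1
      rcases mul_eq_zero.mp h1 with h2 | h2
      · exact hpow _ h2
      · rcases mul_eq_zero.mp h2 with h3 | h3
        · exact hB1 true (by rw [h3, coeff_zero])
        · exact (hqc 1 one_ne_zero).1 h3
    · exact h
    · exfalso
      have h1 := id1 true _ le_rfl h.le
      rw [if_neg h.ne, if_pos rfl, add_zero] at h1
      rcases mul_eq_zero.mp h1 with h2 | h2
      · exact hpow _ h2
      · apply Sp_coeff_pos hX1S (ν := ν1 true)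
        · rw [hν1]
          simp only
          rw [if_pos (hX1W true)]
          exact Nat.one_pos
        · rw [h2, coeff_zero]
  refine ⟨hab, ?_⟩
  -- the degree of the left faces
  obtain ⟨I₀, hI₀B, hI₀max⟩ := Finset.exists_max_image B (fun I => I.card)
    ⟨∅, empty_mem_DB hw⟩
  have hdB : ∀ ν : Finset P → ℕ, (∀ I ∈ B, 0 < ν I) → Sp B ν ≠ 0 ∧
      (Sp B ν).natDegree = I₀.card := by
    intro ν hν
    have h1 := Sp_coeff_pos hI₀B (hν I₀ hI₀B)
    refine ⟨fun h => h1 (by rw [h, coeff_zero]), le_antisymm ?_ (Sp_le hI₀B (hν I₀ hI₀B))⟩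
    rw [natDegree_le_iff_coeff_eq_zero]
    intro k hk
    by_contra hne
    obtain ⟨I, hI, hIk, -⟩ := Sp_exists hne
    have h2 := hI₀max I hI
    omega
  have hdeg : ∀ (ν : Finset P → ℕ) (τ : ℚ), τ ≠ 0 → (∀ I ∈ B, 0 < ν I) →
      ((-1) ^ (ZA r (v c) C m).card * Sp S ν + (-1) ^ (ZB r (v c) C).card *
        (Sp B ν * q.comp (-1 - Polynomial.C τ * X)) = 0) →
      Sp S ν ≠ 0 ∧ (Sp S ν).natDegree = I₀.card + q.natDegree := by
    intro ν τ hτ hν h
    obtain ⟨h1, h2⟩ := hdB ν hν
    obtain ⟨h3, h4⟩ := hqc τ hτ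
    have h5 : (-1) ^ (ZA r (v c) C m).card * Sp S ν = -((-1) ^ (ZB r (v c) C).card *
        (Sp B ν * q.comp (-1 - Polynomial.C τ * X))) := eq_neg_of_add_eq_zero_left h
    have h6 : Sp S ν ≠ 0 := by
      intro h7
      rw [h7, mul_zero] at h5
      exact mul_ne_zero (hpow _) (mul_ne_zero h1 h3) (neg_eq_zero.mp h5.symm)
    refine ⟨h6, ?_⟩
    have h7 := congrArg Polynomial.natDegree h5
    have hone : ∀ k : ℕ, ((-1 : ℚ[X]) ^ k).natDegree = 0 := fun k => by
      rw [natDegree_pow, natDegree_neg, natDegree_one, mul_zero]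
    rw [natDegree_neg, natDegree_mul (hpow _) h6, natDegree_mul (hpow _) (mul_ne_zero h1 h3),
      natDegree_mul h1 h3, h2, h4, hone, hone, zero_add, zero_add] at h7
    exact h7
  have hν1B : ∀ e, ∀ I ∈ B, 0 < ν1 e I := fun e I hI => by
    rw [hν1]
    simp only
    rw [if_pos (hBW e I hI)]
    exact Nat.one_pos
  have hBC : ∀ I ∈ B, I ⊆ C := fun I hI x hx => (mem_X0.mp ((mem_DB.mp hI).1 hx)).1
  have hSC : ∀ I ∈ S, I ⊆ C := fun I hI => (mem_OAs.mp hI).1
  have e1 : ∀ e, ((-1) ^ (ZA r (v c) C m).card * Sp S (ν1 e) + (-1) ^ (ZB r (v c) C).card *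
        (Sp B (ν1 e) * q.comp (-1 - Polynomial.C 1 * X)) = 0) := fun e => by
    have h1 := id1 e _ le_rfl hab.ge
    rwa [if_pos rfl, if_pos hab.symm] at h1
  have e2 : ((-1) ^ (ZA r (v c) C m).card * Sp S ν2 + (-1) ^ (ZB r (v c) C).card *
        (Sp B ν2 * q.comp (-1 - Polynomial.C 2 * X)) = 0) := by
    have h1 := id2 _ le_rfl hab.ge
    rwa [if_pos rfl, if_pos hab.symm] at h1
  have d1 := fun e => hdeg (ν1 e) 1 one_ne_zero (hν1B e) (e1 e)
  have d2 := hdeg ν2 2 two_ne_zero (fun I hI => nu2_pos hh (hBC I hI)) e2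
  -- the order at zero
  have hord : (X1 r (v c) C m).card + 1 ≤ q.natDegree := by
    set q' := q.comp (-1 - Polynomial.C 1 * X) with hq'
    obtain ⟨h3, h4⟩ := hqc 1 one_ne_zero
    rw [← hq'] at h3 h4
    have h5 : (X : ℚ[X]) ^ (X1 r (v c) C m).card ∣ Sp S (ν1 true) := by
      rw [Sp]
      apply Finset.dvd_sum
      intro I hI
      apply Dvd.dvd.mul_left
      apply pow_dvd_pow
      exact Finset.card_le_card (mem_OAs.mp hI).2.2.1
    have h6 : (X : ℚ[X]) ^ (X1 r (v c) C m).card ∣ Sp B (ν1 true) * q' := by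
      have h7 : Sp B (ν1 true) * q' = -((-1) ^ (ZB r (v c) C).card *
          ((-1) ^ (ZA r (v c) C m).card * Sp S (ν1 true))) := by
        have h8 := e1 true
        have h9 : ((-1 : ℚ[X]) ^ (ZB r (v c) C).card) * (-1) ^ (ZB r (v c) C).card = 1 := by
          rw [← mul_pow]
          norm_num
        linear_combination (-1 : ℚ[X]) ^ (ZB r (v c) C).card * h8 -
          (Sp B (ν1 true) * q') * h9
      rw [h7]
      exact (Dvd.dvd.mul_left (Dvd.dvd.mul_left h5 _) _).neg_right
    have hXB : IsCoprime ((X : ℚ[X]) ^ (X1 r (v c) C m).card) (Sp B (ν1 true)) := by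
      apply IsCoprime.pow_left
      rw [Polynomial.irreducible_X.coprime_iff_not_dvd, X_dvd_iff]
      exact hB1 true
    have h7 := hXB.dvd_of_dvd_mul_left h6
    have h8 : (X + 1 : ℚ[X]) ∣ q' := by
      have h9 : (X + 1 : ℚ[X]) = X - Polynomial.C (-1) := by
        rw [Polynomial.C_neg, Polynomial.C_1]
        ring
      rw [h9, dvd_iff_isRoot, IsRoot.def, hq', eval_comp, eval_sub, eval_neg, eval_one,
        eval_mul, eval_C, eval_X]
      norm_num
      exact psi_eval_zero true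
    have h9 : IsCoprime ((X : ℚ[X]) ^ (X1 r (v c) C m).card) (X + 1) := by
      apply IsCoprime.pow_left
      exact ⟨-1, 1, by ring⟩
    have h10 := h9.mul_dvd h7 h8
    have h11 := natDegree_le_of_dvd h10 h3
    rw [h4, natDegree_mul (pow_ne_zero _ X_ne_zero) (by
      intro h
      have := congrArg (fun p : ℚ[X] => p.coeff 0) h
      simp at this), natDegree_X_pow] at h11
    have h12 : (X + 1 : ℚ[X]).natDegree = 1 := by
      have : (X + 1 : ℚ[X]) = X + Polynomial.C 1 := by rw [Polynomial.C_1]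
      rw [this, natDegree_X_add_C]
    rw [h12] at h11
    exact h11
  refine ⟨I₀.card + q.natDegree, fun I hI => ?_, fun e => ?_, ?_⟩
  · rw [← d2.2]
    exact Sp_le hI (nu2_pos hh (hSC I hI))
  · have h1 : (Sp S (ν1 e)).coeff (I₀.card + q.natDegree) ≠ 0 := by
      rw [← (d1 e).2]
      exact leadingCoeff_ne_zero.mpr (d1 e).1
    obtain ⟨I, hI, hIk, hν⟩ := Sp_exists h1
    refine ⟨I, hI, hIk, ?_⟩
    by_contra h2
    rw [hν1] at hν
    simp only at hν
    rw [if_neg h2] at hν
    exact lt_irrefl _ hν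
  · have h1 : (Sp S (ν1 true)).coeff (I₀.card + q.natDegree) ≠ 0 := by
      rw [← (d1 true).2]
      exact leadingCoeff_ne_zero.mpr (d1 true).1
    obtain ⟨I, hI, hIk, -⟩ := Sp_exists h1
    refine ⟨I, hI, hIk, ?_⟩
    by_contra hno
    push Not at hno
    obtain ⟨hIC, hId, hX, hO1, hO2, hO3⟩ := mem_OAs.mp hI
    have hR : I \ X1 r (v c) C m ∈ B := by
      rw [hB, mem_DB]
      constructor
      · intro x hx
        rw [Finset.mem_sdiff] at hx
        have hlo := (hiso x (hIC hx.1)).resolve_right (hno x hx.1)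
        by_contra h0
        apply hO2 x (hIC hx.1) hlo _ hx.1
        rw [mem_NA]
        rintro (h3 | h3 | h3)
        · exact hx.2 h3
        · exact h0 h3
        · exact not_Lo_Hi hh (hIC hx.1) hlo (mem_Y1.mp h3).2.1
      · intro y hy hhi hY0
        by_contra hcon
        push Not at hcon
        -- some weak lower element, all of them in `I \ X1`
        obtain ⟨x, hx, hxy, hlt⟩ : ∃ x ∈ C, r x y ∧ v c x < v c y := by
          by_contra h3
          push Not at h3
          apply hY0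
          refine mem_Y0.mpr ⟨hy, hhi, fun x hx hxy => ?_⟩
          have := h3 x hx hxy
          have := hw x y hxy
          omega
        have hxR : x ∈ I \ X1 r (v c) C m := by
          by_contra h3
          have := hcon x (Finset.mem_sdiff.mpr ⟨hx, h3⟩) hxy
          omega
        have hxX := (Finset.mem_sdiff.mp hxR).2
        have hym : ¬ v c m < v c y := fun h3 =>
          hxX (mem_X1.mpr ⟨hx, y, hy, hxy, hlt, h3⟩)
        have hyN : y ∉ NA r (v c) C m := by
          rw [mem_NA]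
          rintro (h3 | h3 | h3)
          · obtain ⟨-, z, hz, hyz, -⟩ := mem_X1.mp h3
            exact not_Lo_Hi hh hy ⟨z, hz, hyz⟩ hhi
          · exact not_Lo_Hi hh hy (mem_X0.mp h3).2.1 hhi
          · exact hxX ((mem_Y1.mp h3).2.2.2 x hx hxy hlt)
        obtain ⟨-, h3⟩ := hO3 y hy hhi hyN
        rcases h3 with h3 | ⟨a, ha, hay, hlt'⟩
        · exact hym h3
        · rw [Finset.mem_sdiff] at ha
          have := hcon a (Finset.mem_sdiff.mpr ⟨ha.1, fun h4 =>
            ha.2 (Finset.mem_sdiff.mp h4).1⟩) hay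
          omega
    have h3 := hI₀max _ hR
    rw [Finset.card_sdiff_of_subset hX] at h3
    have h4 := Finset.card_le_card hX
    omega

end

end Pool.Agent.Lib.MP_5bc52d_co.Key
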