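import Mathlib
import Pool.Agent.Lib.MP_5bc52d_co.H3.Poly

/-!
# Height three: the final contradiction
-/

open Finset Polynomial

set_option linter.unusedSectionVars false

namespace Pool.Agent.Lib.MP_5bc52d_co.Key

open Splitting Cyc Cut

section
variable {P : Type*} [Fintype P] [DecidableEq P] {r : P → P → Prop} {w : P → ℤ}
  {C : Finset P} {m : P}
  (hw : ∀ x y, r x y → w x ≠ w y) (hmC : m ∉ C) (hm : ∀ p ∈ C, r p m)
  (hh : ∀ x ∈ C, ∀ y ∈ C, ∀ z ∈ C, r x y → ¬ r y z)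
include hh

/-- the upper elements of an optimal set -/
theorem OAs_upper {I : Finset P} (hI : I ∈ OAs r w C m) {y : P} (hy : y ∈ I) (hhi : Hi r C y) :
    w y < w m ∧ ∀ x ∈ C, r x y → x ∈ X1 r w C m := by
  obtain ⟨hIC, hId, hX, hO1, hO2, hO3⟩ := mem_OAs.mp hI
  have hyC := hIC hy
  have hyN : y ∈ NA r w C m := by
    by_contra h
    exact (hO3 y hyC hhi h).1 hy
  have hyY : y ∈ Y1 r w C m := by
    rcases mem_NA.mp hyN with h | h | h
    · obtain ⟨-, z, hz, hyz, -⟩ := mem_X1.mp h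
      exact absurd hhi (fun h' => not_Lo_Hi hh hyC ⟨z, hz, hyz⟩ h')
    · exact absurd hhi (fun h' => not_Lo_Hi hh hyC (mem_X0.mp h).2.1 h')
    · exact h
  obtain ⟨-, -, hlt, hall⟩ := mem_Y1.mp hyY
  refine ⟨hlt, fun x hx hxy => ?_⟩
  have hxI := hId x hx y hy hxy
  by_cases hxw : w x < w y
  · exact hall x hx hxy hxw
  · have hxN : x ∈ NA r w C m := by
      by_contra h
      exact hO2 x hx ⟨y, hyC, hxy⟩ h hxI
    rcases mem_NA.mp hxN with h | h | h
    · exact h
    · exact absurd ((mem_X0.mp h).2.2 y hyC hxy) hxw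
    · exact absurd (mem_Y1.mp h).2.1 (fun h' => not_Lo_Hi hh hx ⟨y, hyC, hxy⟩ h')

/-- enlarging an optimal set by an upper element -/
theorem OAs_insert {I : Finset P} (hI : I ∈ OAs r w C m) {y : P} (hy : y ∈ C)
    (hhi : Hi r C y) (hlt : w y < w m) (hlow : ∀ x ∈ C, r x y → x ∈ X1 r w C m)
    {y' : P} (hy' : y' ∈ C) (hyI' : y' ∉ I) (hne : y' ≠ y) (hhi' : Hi r C y')
    (hlt' : w y' < w m) : insert y I ∈ OAs r w C m := by
  obtain ⟨hIC, hId, hX, hO1, hO2, hO3⟩ := mem_OAs.mp hI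
  have hyY : y ∈ NA r w C m := mem_NA.mpr (Or.inr (Or.inr
    (mem_Y1.mpr ⟨hy, hhi, hlt, fun x hx hxy _ => hlow x hx hxy⟩)))
  rw [mem_OAs]
  refine ⟨Finset.insert_subset hy hIC, fun a ha b hb hab => ?_,
    hX.trans (Finset.subset_insert y I), ?_, fun x hx hlo hxN => ?_, fun z hz hhz hzN => ?_⟩
  · rcases Finset.mem_insert.mp hb with h | h
    · exact Finset.mem_insert_of_mem (hX (hlow a ha (h ▸ hab)))
    · exact Finset.mem_insert_of_mem (hId a ha b h hab)
  · refine ⟨y', Finset.mem_sdiff.mpr ⟨hy', fun h => ?_⟩, hhi', hlt'⟩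
    rcases Finset.mem_insert.mp h with h1 | h1
    · exact hne h1
    · exact hyI' h1
  · intro h
    rcases Finset.mem_insert.mp h with h1 | h1
    · exact hxN (h1 ▸ hyY)
    · exact hO2 x hx hlo hxN h1
  · obtain ⟨h1, h2⟩ := hO3 z hz hhz hzN
    refine ⟨fun h => ?_, ?_⟩
    · rcases Finset.mem_insert.mp h with h3 | h3
      · exact hzN (h3 ▸ hyY)
      · exact h1 h3
    · rcases h2 with h2 | ⟨a, ha, haz, hlt2⟩
      · exact Or.inl h2
      · right
        rw [Finset.mem_sdiff] at ha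
        refine ⟨a, Finset.mem_sdiff.mpr ⟨ha.1, fun h => ?_⟩, haz, hlt2⟩
        rcases Finset.mem_insert.mp h with h3 | h3
        · exact not_Lo_Hi hh ha.1 ⟨z, hz, haz⟩ (h3 ▸ hhi)
        · exact ha.2 h3

/-- the structure of the upper elements of weak kind -/
theorem two_upper {K : ℕ} (hmax : ∀ I ∈ OAs r w C m, I.card ≤ K)
    {A B I₀ : Finset P} (hA : A ∈ OAs r w C m) (hAK : A.card = K) (hAw : Wk r w A A)
    (hB : B ∈ OAs r w C m) (hBK : B.card = K) (hBw : Wk r (-w) B B)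
    (hI₀ : I₀ ∈ OAs r w C m) {y₀ : P} (hy₀ : y₀ ∈ I₀) (hhi₀ : Hi r C y₀) :
    ∃ y₁ ∈ C, ∃ y₂ ∈ C, Hi r C y₁ ∧ Hi r C y₂ ∧ w y₁ < w m ∧ w y₂ < w m ∧
      (∀ y ∈ C, Hi r C y → w y < w m → y = y₁ ∨ y = y₂) ∧
      (∀ x ∈ C, r x y₁ → w x < w y₁ ∧ x ∈ X1 r w C m) ∧
      (∀ x ∈ C, r x y₂ → w y₂ < w x ∧ x ∈ X1 r w C m) := by
  obtain ⟨hAC, hAd, hAO⟩ := mem_OAs.mp hA
  obtain ⟨hBC, hBd, hBO⟩ := mem_OAs.mp hB
  obtain ⟨hIC, hId, -, ⟨y₀', hy₀', hhi₀', hlt₀'⟩, -⟩ := mem_OAs.mp hI₀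
  rw [Finset.mem_sdiff] at hy₀'
  -- maximality
  have key : ∀ I ∈ OAs r w C m, I.card = K → ∀ y ∈ C, Hi r C y → w y < w m →
      (∀ x ∈ C, r x y → x ∈ X1 r w C m) → y ∉ I → ∀ y' ∈ C, Hi r C y' → w y' < w m →
      y' ∉ I → y' = y := by
    intro I hI hIK y hy hhi hlt hlow hyI y' hy' hhi' hlt' hyI'
    by_contra hne
    have h1 := hmax _ (OAs_insert hh hI hy hhi hlt hlow hy' hyI' hne hhi' hlt')
    rw [Finset.card_insert_of_notMem hyI] at h1
    omega
  -- no common upper element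
  have hAB : ∀ y ∈ C, Hi r C y → y ∈ A → y ∉ B := by
    intro y hy hhi hyA hyB
    obtain ⟨x, hx, hxy⟩ := hhi
    have h1 := hAw.2 x (hAd x hx y hyA hxy) y hyA hxy
    have h2 := hBw.2 x (hBd x hx y hyB hxy) y hyB hxy
    simp only [Pi.neg_apply] at h2
    omega
  obtain ⟨hlt₀, hlow₀⟩ := OAs_upper hh hI₀ hy₀ hhi₀
  have hy₀C := hIC hy₀
  have hne₀ : y₀' ≠ y₀ := fun h => hy₀'.2 (h ▸ hy₀)
  -- an element of the second kind outside `A`
  have hex : ∀ I J : Finset P, I ∈ OAs r w C m → I.card = K → J ∈ OAs r w C m → J.card = K →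
      (∀ y ∈ C, Hi r C y → y ∈ I → y ∉ J) →
      ∃ y ∈ C, Hi r C y ∧ w y < w m ∧ (∀ x ∈ C, r x y → x ∈ X1 r w C m) ∧ y ∉ I := by
    intro I J hI hIK hJ hJK hIJ
    by_contra hcon
    push Not at hcon
    have hJn : ∀ y ∈ J, ¬ Hi r C y := by
      intro y hy hhi
      have hyC := (mem_OAs.mp hJ).1 hy
      obtain ⟨h1, h2⟩ := OAs_upper hh hJ hy hhi
      exact hIJ y hyC hhi (hcon y hyC hhi h1 h2) hy
    exact hne₀ (key J hJ hJK y₀ hy₀C hhi₀ hlt₀ hlow₀ (fun h => hJn y₀ h hhi₀) y₀' hy₀'.1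
      hhi₀' hlt₀' (fun h => hJn y₀' h hhi₀'))
  obtain ⟨y₂, hy₂, hhi₂, hlt₂, hlow₂, hyA₂⟩ := hex A B hA hAK hB hBK hAB
  obtain ⟨y₁, hy₁, hhi₁, hlt₁, hlow₁, hyB₁⟩ := hex B A hB hBK hA hAK
    (fun y hy hhi hyB hyA => hAB y hy hhi hyA hyB)
  have kA : ∀ y' ∈ C, Hi r C y' → w y' < w m → y' ∉ A → y' = y₂ := fun y' h1 h2 h3 h4 =>
    key A hA hAK y₂ hy₂ hhi₂ hlt₂ hlow₂ hyA₂ y' h1 h2 h3 h4
  have kB : ∀ y' ∈ C, Hi r C y' → w y' < w m → y' ∉ B → y' = y₁ := fun y' h1 h2 h3 h4 =>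
    key B hB hBK y₁ hy₁ hhi₁ hlt₁ hlow₁ hyB₁ y' h1 h2 h3 h4
  have hall : ∀ y ∈ C, Hi r C y → w y < w m → y = y₁ ∨ y = y₂ := by
    intro y hy hhi hlt
    by_cases h1 : y ∈ A
    · exact Or.inl (kB y hy hhi hlt (hAB y hy hhi h1))
    · exact Or.inr (kA y hy hhi hlt h1)
  have hne : y₁ ≠ y₂ := by
    intro h
    apply hne₀
    have h1 : ∀ y ∈ C, Hi r C y → w y < w m → y = y₂ := fun y h1 h2 h3 => by
      rcases hall y h1 h2 h3 with h4 | h4
      · exact h4.trans h
      · exact h4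
    rw [h1 y₀' hy₀'.1 hhi₀' hlt₀', h1 y₀ hy₀C hhi₀ hlt₀]
  have h1A : y₁ ∈ A := by
    by_contra h
    exact hne (kA y₁ hy₁ hhi₁ hlt₁ h)
  have h2B : y₂ ∈ B := by
    by_contra h
    exact hne (kB y₂ hy₂ hhi₂ hlt₂ h).symm
  refine ⟨y₁, hy₁, y₂, hy₂, hhi₁, hhi₂, hlt₁, hlt₂, hall, fun x hx hxy => ⟨?_, hlow₁ x hx hxy⟩,
    fun x hx hxy => ⟨?_, hlow₂ x hx hxy⟩⟩
  · exact (hAw.2 x (hAd x hx y₁ h1A hxy) y₁ h1A hxy).2
  · have h3 := (hBw.2 x (hBd x hx y₂ h2B hxy) y₂ h2B hxy).2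
    simp only [Pi.neg_apply] at h3
    omega

end

section
variable {P : Type*} [Fintype P] [DecidableEq P] {r : P → P → Prop} {v : Bool → P → ℤ}
  {C : Finset P} {m : P}
  (ht : ∀ x y z, r x y → r y z → r x z) (hi : ∀ x, ¬ r x x)
  (hv : ∀ c p, v (!c) p = - v c p) (hinj : Function.Injective (v true))
  (hmC : m ∉ C) (hm : ∀ p ∈ C, r p m)
  (hh : ∀ x ∈ C, ∀ y ∈ C, ∀ z ∈ C, r x y → ¬ r y z)
include ht hi hv hinj hmC hm hh

/-- Height three: some word of total value zero has a nonzero value. -/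
theorem height_three (hiso : ∀ x ∈ C, Lo r C x ∨ Hi r C x)
    (hY : ∀ c, ∃ y ∈ C, Hi r C y ∧ v c y < v c m)
    (hN : ∀ l : List (Bool × ℚ[X]), (l.map Prod.snd).sum = 0 → NL r v l (insert m C) = 0) :
    False := by
  classical
  have hw : ∀ c, ∀ x y, r x y → v c x ≠ v c y := by
    intro c x y hxy h
    have h1 : v true x = v true y := by
      cases c
      · have h2 := hv true x
        have h3 := hv true y
        simp only [Bool.not_true] at h2 h3
        omega
      · exact h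
    exact hi x ((hinj h1) ▸ hxy)
  have main : ∀ c, (insert m C \ NA r (v c) C m).card = (insert m C \ NB r (v c) C m).card ∧
      ∃ y₁ ∈ C, ∃ y₂ ∈ C, Hi r C y₁ ∧ Hi r C y₂ ∧ v c y₁ < v c m ∧ v c y₂ < v c m ∧
      (∀ y ∈ C, Hi r C y → v c y < v c m → y = y₁ ∨ y = y₂) ∧
      (∀ x ∈ C, r x y₁ → v c x < v c y₁ ∧ x ∈ X1 r (v c) C m) ∧
      (∀ x ∈ C, r x y₂ → v c y₂ < v c x ∧ x ∈ X1 r (v c) C m) := by
    intro c
    obtain ⟨h1, K, hmax, hpure, I₀, hI₀, -, y₀, hy₀, hhi₀⟩ :=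
      phases (c := c) ht hi hv (hw c) hmC hm hh hiso (hY c) hN
    refine ⟨h1, ?_⟩
    obtain ⟨A, hA, hAK, hAw⟩ := hpure c
    obtain ⟨B, hB, hBK, hBw⟩ := hpure (!c)
    have hvc : v (!c) = -(v c) := funext (fun p => hv c p)
    rw [hvc] at hBw
    exact two_upper hh hmax hA hAK hAw hB hBK hBw hI₀ hy₀ hhi₀
  obtain ⟨hcard, y₁, hy₁, y₂, hy₂, hhi₁, hhi₂, hlt₁, hlt₂, hall, hl₁, hl₂⟩ := main true
  obtain ⟨-, y₃, hy₃, y₄, hy₄, hhi₃, hhi₄, hlt₃, hlt₄, hall', hl₃, hl₄⟩ := main false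
  have hvf : ∀ p, v false p = - v true p := fun p => hv true p
  simp only [hvf] at hlt₃ hlt₄ hall' hl₃ hl₄
  -- the two sets `X1`
  have hX : ∀ x ∈ X1 r (v true) C m, r x y₄ := by
    intro x hx
    obtain ⟨hxC, y, hy, hxy, h1, h2⟩ := mem_X1.mp hx
    rcases hall' y hy ⟨x, hxC, hxy⟩ (by omega) with h | h
    · subst h
      have := (hl₃ x hxC hxy).1
      omega
    · exact h ▸ hxy
  have hX' : ∀ x ∈ X1 r (v false) C m, r x y₂ := by
    intro x hx
    obtain ⟨hxC, y, hy, hxy, h1, h2⟩ := mem_X1.mp hx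
    rw [hvf, hvf] at h1 h2
    rcases hall y hy ⟨x, hxC, hxy⟩ (by omega) with h | h
    · subst h
      have := (hl₁ x hxC hxy).1
      omega
    · exact h ▸ hxy
  have hX'' : ∀ x ∈ C, r x y₂ ↔ x ∈ X1 r (v true) C m := by
    intro x hx
    refine ⟨fun h => (hl₂ x hx h).2, fun h => ?_⟩
    have h1 := hX x h
    exact hX' x (hl₄ x hx h1).2
  -- every lower element lies in both
  have hlow : ∀ x ∈ C, Lo r C x → x ∈ X1 r (v true) C m := by
    rintro x hx ⟨y, hy, hxy⟩
    have hym := hw true y m (hm y hy)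
    by_cases h1 : v true y < v true m
    · rcases hall y hy ⟨x, hx, hxy⟩ h1 with h | h
      · exact (hl₁ x hx (h ▸ hxy)).2
      · exact (hl₂ x hx (h ▸ hxy)).2
    · rcases hall' y hy ⟨x, hx, hxy⟩ (by omega) with h | h
      · rw [← hX'' x hx]
        exact hX' x (hl₃ x hx (h ▸ hxy)).2
      · rw [← hX'' x hx]
        exact hX' x (hl₄ x hx (h ▸ hxy)).2
  have hne : y₁ ≠ y₂ := by
    intro h
    subst h
    obtain ⟨x, hx, hxy⟩ := hhi₁
    have h1 := (hl₁ x hx hxy).1
    have h2 := (hl₂ x hx hxy).1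
    omega
  -- counting
  have hNA : insert y₁ (insert y₂ (X1 r (v true) C m)) ⊆ NA r (v true) C m := by
    intro x hx
    rw [Finset.mem_insert, Finset.mem_insert] at hx
    rw [mem_NA]
    rcases hx with h | h | h
    · subst h
      exact Or.inr (Or.inr (mem_Y1.mpr ⟨hy₁, hhi₁, hlt₁, fun x hx hxy _ => (hl₁ x hx hxy).2⟩))
    · subst h
      exact Or.inr (Or.inr (mem_Y1.mpr ⟨hy₂, hhi₂, hlt₂, fun x hx hxy _ => (hl₂ x hx hxy).2⟩))
    · exact Or.inl h
  have hNB : NB r (v true) C m ⊆ {m, y₂, y₃} := by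
    intro x hx
    rw [Finset.mem_insert, Finset.mem_insert, Finset.mem_singleton]
    rcases mem_NB.mp hx with h | h | h
    · exact Or.inl h
    · exfalso
      obtain ⟨hxC, hlo, hup⟩ := mem_X0.mp h
      have h1 := (hX'' x hxC).mpr (hlow x hxC hlo)
      have h2 := hup y₂ hy₂ h1
      have h3 := (hl₂ x hxC h1).1
      omega
    · right
      obtain ⟨hxC, hhi, hdn⟩ := mem_Y0.mp h
      obtain ⟨z, hz, hzx⟩ := hhi
      have h5 := hdn z hz hzx
      have hxm := hw true x m (hm x hxC)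
      by_cases h1 : v true x < v true m
      · rcases hall x hxC ⟨z, hz, hzx⟩ h1 with h2 | h2
        · subst h2
          have := (hl₁ z hz hzx).1
          omega
        · exact Or.inl h2
      · rcases hall' x hxC ⟨z, hz, hzx⟩ (by omega) with h2 | h2
        · exact Or.inr h2
        · subst h2
          have := (hl₄ z hz hzx).1
          omega
  have hNAU : NA r (v true) C m ⊆ insert m C := by
    intro x hx
    rcases mem_NA.mp hx with h | h | h
    · exact Finset.mem_insert_of_mem (mem_X1.mp h).1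
    · exact Finset.mem_insert_of_mem (mem_X0.mp h).1
    · exact Finset.mem_insert_of_mem (mem_Y1.mp h).1
  have hNBU : NB r (v true) C m ⊆ insert m C := by
    intro x hx
    rcases mem_NB.mp hx with h | h | h
    · exact h ▸ Finset.mem_insert_self m C
    · exact Finset.mem_insert_of_mem (mem_X0.mp h).1
    · exact Finset.mem_insert_of_mem (mem_Y0.mp h).1
  have hX1c : (X1 r (v true) C m).card ≤ 1 := by
    have h1 := Finset.card_sdiff_of_subset hNAU
    have h2 := Finset.card_sdiff_of_subset hNBU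
    have h3 := Finset.card_le_card hNAU
    have h4 := Finset.card_le_card hNBU
    have h5 := Finset.card_le_card hNA
    have h6 := (Finset.card_le_card hNB).trans Finset.card_le_three
    have hy₁X : ∀ y, Hi r C y → y ∉ X1 r (v true) C m := fun y hhi h => by
      obtain ⟨hyC, z, hz, hyz, -⟩ := mem_X1.mp h
      exact not_Lo_Hi hh hyC ⟨z, hz, hyz⟩ hhi
    rw [Finset.card_insert_of_notMem (by
        rw [Finset.mem_insert]
        rintro (h | h)
        · exact hne h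
        · exact hy₁X y₁ hhi₁ h), Finset.card_insert_of_notMem (hy₁X y₂ hhi₂)] at h5
    omega
  -- the contradiction with the labels
  obtain ⟨x, hx, hxy⟩ := hhi₁
  obtain ⟨z, hz, hzy⟩ := hhi₃
  have h1 := hl₁ x hx hxy
  have h2 := hl₃ z hz hzy
  have hxX := h1.2
  have hzX := hlow z hz ⟨y₃, hy₃, hzy⟩
  have hxz : x = z := Finset.card_le_one.mp hX1c x hxX z hzX
  subst hxz
  have h3 := h1.1
  have h4 := h2.1
  omega

end

section
variable {P : Type*} [Fintype P] [DecidableEq P] {A : Type*} [CommRing A]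
  {Γ : Finset P → A} {s : Bool → A} {r : P → P → Prop} {v : Bool → P → ℤ}
  {F : Bool → A →+* A[X]} {cc : A →+* ℚ}
  (ht : ∀ x y z, r x y → r y z → r x z) (hi : ∀ x, ¬ r x x)
  (hv : ∀ c p, v (!c) p = - v c p) (hinj : Function.Injective (v true))
  (hs1 : s true = 1) (hs2 : s false = -1)
  (hcc : ∀ U, cc (Γ U) = if U = ∅ then 1 else 0)
  (hF : ∀ c, PeelE Γ (s c) r (v c) (F c))
  {C : Finset P} {m : P} (hmC : m ∉ C) (hm : ∀ p ∈ C, r p m)
  (hh : ∀ x ∈ C, ∀ y ∈ C, ∀ z ∈ C, r x y → ¬ r y z)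
include ht hi hv hinj hs1 hs2 hcc hF hmC hm hh

/-- **Height three.** Let `m` be the greatest element, let all chains of `C` have at most two
elements, let `C` not split, and let `m` lie in no pure initial part. Then the function of a
point does not divide. -/
theorem no_dvd_height_three (hne : C.Nonempty) (hS : ¬ Splits r C)
    (hmA : ∀ c, m ∉ AL r (v c) (insert m C))
    (hcor : ∀ c e, ¬ Disjoint (AL r (v c) (insert m C))
      (AL (fun a b => r b a) (v (!e)) (insert m C))) (x : P) :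
    ¬ Γ {x} ∣ Γ (insert m C) := by
  classical
  intro hd
  have hw : ∀ c, ∀ x y, r x y → v c x ≠ v c y := by
    intro c x y hxy h
    have h1 : v true x = v true y := by
      cases c
      · have h2 := hv true x
        have h3 := hv true y
        simp only [Bool.not_true] at h2 h3
        omega
      · exact h
    exact hi x ((hinj h1) ▸ hxy)
  -- no isolated element
  have hiso : ∀ x ∈ C, Lo r C x ∨ Hi r C x := by
    intro x hx
    by_contra hcon
    push Not at hcon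
    by_cases hC1 : C = {x}
    · -- one element below `m`
      rcases lt_or_gt_of_ne (hw true x m (hm x hx)) with h | h
      · apply hmA true
        refine mem_AL.mpr ⟨Finset.mem_insert_self m C, fun a ha b hb hab _ => ?_⟩
        rw [hC1, Finset.mem_insert, Finset.mem_singleton] at ha hb
        rcases ha with ha | ha <;> rcases hb with hb | hb <;> subst ha <;> subst hb
        · exact absurd hab (hi _)
        · exact absurd (ht _ _ _ hab (hm _ hx)) (hi _)
        · exact h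
        · exact absurd hab (hi _)
      · apply hmA false
        refine mem_AL.mpr ⟨Finset.mem_insert_self m C, fun a ha b hb hab _ => ?_⟩
        rw [hC1, Finset.mem_insert, Finset.mem_singleton] at ha hb
        rcases ha with ha | ha <;> rcases hb with hb | hb <;> subst ha <;> subst hb
        · exact absurd hab (hi _)
        · exact absurd (ht _ _ _ hab (hm _ hx)) (hi _)
        · have h1 := hv true a
          have h2 := hv true b
          simp only [Bool.not_true] at h1 h2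
          omega
        · exact absurd hab (hi _)
    · apply hS
      refine ⟨{x}, C \ {x}, ?_, Finset.disjoint_sdiff, ?_, Finset.singleton_nonempty x, ?_⟩
      · rw [Finset.union_sdiff_of_subset (Finset.singleton_subset_iff.mpr hx)]
      · intro a ha b hb
        rw [Finset.mem_singleton] at ha
        subst ha
        rw [Finset.mem_sdiff] at hb
        exact ⟨fun h => hcon.1 ⟨b, hb.1, h⟩, fun h => hcon.2 ⟨b, hb.1, h⟩⟩
      · rw [Finset.nonempty_iff_ne_empty]
        intro h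
        rw [Finset.sdiff_eq_empty_iff_subset] at h
        exact hC1 (Finset.Subset.antisymm h (Finset.singleton_subset_iff.mpr hx))
  -- both kinds at `m`
  have hY : ∀ c, ∃ y ∈ C, Hi r C y ∧ v c y < v c m := by
    intro c
    by_contra hcon
    push Not at hcon
    apply hcor c c
    rw [Finset.disjoint_left]
    intro x hx hx'
    by_cases hxm : x = m
    · exact hmA c (hxm ▸ hx)
    · have hxC : x ∈ C := (Finset.mem_insert.mp (AL_subset hx)).resolve_left hxm
      have hx'' := (mem_AL.mp hx').2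
      rcases hiso x hxC with ⟨y, hy, hxy⟩ | hhi
      · have h1 := hx'' m (Finset.mem_insert_self m C) y (Finset.mem_insert_of_mem hy)
          (hm y hy) (Or.inr hxy)
        have h2 := hcon y hy ⟨x, hxC, hxy⟩
        rw [hv, hv] at h1
        omega
      · have h1 := hx'' m (Finset.mem_insert_self m C) x (Finset.mem_insert_of_mem hxC)
          (hm x hxC) (Or.inl rfl)
        have h2 := hcon x hxC hhi
        rw [hv, hv] at h1
        omega
  refine height_three ht hi hv hinj hmC hm hh hiso hY (fun l hl => ?_)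
  refine NL_zero (cc := (Polynomial.C : ℚ →+* ℚ[X]).comp cc) hi hs1 hs2 (fun U => ?_) hF hd hl
  rw [RingHom.comp_apply, hcc]
  split_ifs
  · exact Polynomial.C_1
  · exact Polynomial.C_0

end

end Pool.Agent.Lib.MP_5bc52d_co.Key
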