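import Mathlib
import Pool.Agent.Lib.MP_5bc52d_co.H3.Final

/-!
# Height three: greatest and least element
-/

open Finset Polynomial

set_option linter.unusedSectionVars false

namespace Pool.Agent.Lib.MP_5bc52d_co.Key

open Splitting Cyc Cut

section
variable {P : Type*} [Fintype P] [DecidableEq P] [PartialOrder P]
variable {Q : Subring R} (hQ : ∀ F : R, F ∈ Q ↔ IsQS F)
include hQ

/-- greatest element, height at most three -/
theorem h3_top {ω : P → ℕ} (hω : Function.Injective ω) {C : Finset P} {m : P} (hmC : m ∉ C)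
    (hm : ∀ p ∈ C, p < m) (hh : ∀ x ∈ C, ∀ y ∈ C, ∀ z ∈ C, x < y → ¬ y < z)
    (hne : C.Nonempty) (hS : ¬ Splits (fun a b : P => a < b) C)
    (hmA : ∀ c, m ∉ AL (fun a b : P => a < b) (Cut.wt ω c) (insert m C))
    (hcor : ∀ c e, ¬ Disjoint (AL (fun a b : P => a < b) (Cut.wt ω c) (insert m C))
      (AL (fun a b : P => b < a) (Cut.wt ω (!e)) (insert m C))) (x : P) :
    ¬ GamQ hQ ω {x} ∣ GamQ hQ ω (insert m C) :=
  no_dvd_height_three (Γ := GamQ hQ ω) (s := sg Q) (r := fun a b : P => a < b)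
    (v := Cut.wt ω) (F := lo hQ) (cc := cc Q)
    (fun x y z h1 h2 => lt_trans h1 h2) (fun x => lt_irrefl x) (wt_hv hQ ω) (wt_inj hω true)
    rfl rfl (cc_GamQ hQ ω m) (peelE_lo hQ hω) hmC hm hh hne hS hmA hcor x

/-- least element, height at most three -/
theorem h3_bot {ω : P → ℕ} (hω : Function.Injective ω) {C : Finset P} {m : P} (hmC : m ∉ C)
    (hm : ∀ p ∈ C, m < p) (hh : ∀ x ∈ C, ∀ y ∈ C, ∀ z ∈ C, x < y → ¬ y < z)
    (hne : C.Nonempty) (hS : ¬ Splits (fun a b : P => b < a) C)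
    (hmA : ∀ c, m ∉ AL (fun a b : P => b < a) (Cut.wt ω (!c)) (insert m C))
    (hcor : ∀ c e, ¬ Disjoint (AL (fun a b : P => b < a) (Cut.wt ω (!c)) (insert m C))
      (AL (fun a b : P => a < b) (Cut.wt ω (!(!e))) (insert m C))) (x : P) :
    ¬ GamQ hQ ω {x} ∣ GamQ hQ ω (insert m C) :=
  no_dvd_height_three (Γ := GamQ hQ ω) (s := sg Q) (r := fun a b : P => b < a)
    (v := fun c => Cut.wt ω (!c)) (F := hi hQ) (cc := cc Q)
    (fun x y z h1 h2 => lt_trans h2 h1) (fun x => lt_irrefl x)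
    (fun c p => wt_hv hQ ω (!c) p) (wt_inj hω false)
    rfl rfl (cc_GamQ hQ ω m) (peelE_hi hQ hω) hmC hm
    (fun x hx y hy z hz h1 h2 => hh z hz y hy x hx h2 h1) hne hS hmA hcor x

end

end Pool.Agent.Lib.MP_5bc52d_co.Key
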