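import Mathlib
import Pool.Agent.Lib.MP_5bc52d_co.H3.Rule
import Pool.Agent.Lib.MP_5bc52d_co.Key.ClassThm

/-!
# The classes of posets with a greatest or a least element, with height three
-/

open Finset Polynomial

set_option linter.unusedSectionVars false

namespace Pool.Agent.Lib.MP_5bc52d_co.Key

open Splitting Cyc Cut

/-- there is no chain of three elements in `C` -/
def Flat {P : Type*} (r : P → P → Prop) (C : Finset P) : Prop :=
  ∀ x ∈ C, ∀ y ∈ C, ∀ z ∈ C, r x y → ¬ r y z

/-- the conditions on `C`, the set below the greatest element `m` -/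
def KF {P : Type*} [Fintype P] [DecidableEq P] (r : P → P → Prop) (v : Bool → P → ℤ) (m : P)
    (C : Finset P) : Prop :=
  KK r v m C ∨ Flat r C

/-- blocks of `C` without relations between different blocks, each of which satisfies `KF` -/
def KG {P : Type*} [Fintype P] [DecidableEq P] (r : P → P → Prop) (v : Bool → P → ℤ) (m : P)
    (C : Finset P) : Prop :=
  ∃ κ : P → ℕ, (∀ x ∈ C, ∀ y ∈ C, r x y → κ x = κ y) ∧
    ∀ x ∈ C, KF r v m (C.filter fun y => κ y = κ x)

/-- the cases in which the rule for the greatest element applies -/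
def Sg {P : Type*} [Fintype P] [DecidableEq P] (r : P → P → Prop) (v : Bool → P → ℤ) (m : P)
    (C : Finset P) : Prop :=
  St r v m C ∨ (Flat r C ∧ ¬ Splits r C ∧
    ∀ c e, ¬ Disjoint (AL r (v c) (insert m C)) (AL (fun a b => r b a) (v (!e)) (insert m C)))

section
variable {P : Type*} [Fintype P] [DecidableEq P] {r : P → P → Prop} {v : Bool → P → ℤ}
  (ht : ∀ x y z, r x y → r y z → r x z) (hi : ∀ x, ¬ r x x)
  (hv : ∀ c p, v (!c) p = - v c p) (hinj : Function.Injective (v true)) {m : P}

include ht hi in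
theorem KG_step {C : Finset P} (hmC : m ∉ C) (hm : ∀ p ∈ C, r p m) (hC : KG r v m C)
    (A : Finset P) (hA : A ⊆ C) (hdn : ∀ a ∈ C, ∀ b ∈ A, r a b → a ∈ A) :
    KG r v m (C \ A) := by
  obtain ⟨κ, hκ, h⟩ := hC
  refine ⟨κ, fun x hx y hy hxy => hκ x (Finset.mem_sdiff.mp hx).1 y (Finset.mem_sdiff.mp hy).1 hxy,
    fun x hx => ?_⟩
  have h1 : (C \ A).filter (fun y => κ y = κ x) =
      (C.filter fun y => κ y = κ x) \ (A.filter fun y => κ y = κ x) := by
    ext y
    simp only [Finset.mem_filter, Finset.mem_sdiff]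
    tauto
  rcases h x (Finset.mem_sdiff.mp hx).1 with h2 | h2
  · left
    rw [h1]
    refine KK_step ht hi (fun h => hmC (Finset.mem_filter.mp h).1)
      (fun p hp => hm p (Finset.mem_filter.mp hp).1) h2 _
      (Finset.filter_subset_filter _ hA) ?_
    intro a ha b hb hab
    rw [Finset.mem_filter] at ha hb ⊢
    exact ⟨hdn a ha.1 b hb.1 hab, ha.2⟩
  · right
    rw [h1]
    intro a ha b hb c hc
    exact h2 a (Finset.mem_sdiff.mp ha).1 b (Finset.mem_sdiff.mp hb).1 c (Finset.mem_sdiff.mp hc).1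

include ht hi hv hinj in
/-- the classes, for an abstract property -/
theorem class_abs3 {Irr : Finset P → Prop} (hbase : Irr {m})
    (hcorner : ∀ (U : Finset P) (c e : Bool),
      Disjoint (AL r (v c) U) (AL (fun a b => r b a) (v (!e)) U) → Irr (U \ AL r (v c) U) → Irr U)
    (hrule : ∀ C : Finset P, m ∉ C → (∀ p ∈ C, r p m) → C.Nonempty →
      (∀ c, m ∉ AL r (v c) (insert m C)) →
      (∀ c, Irr ((insert m C) \ AL r (v c) (insert m C))) → Sg r v m C →
      Irr (insert m C)) {C : Finset P} (hmC : m ∉ C) (hm : ∀ p ∈ C, r p m)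
    (hK : KG r v m C) : Irr (insert m C) := by
  classical
  refine top_induct ht hi hv hinj hbase hcorner (St := Sg r v m) hrule
    (K := fun C => m ∉ C ∧ (∀ p ∈ C, r p m) ∧ KG r v m C) ?_ ?_ C.card C le_rfl hmC hm
      ⟨hmC, hm, hK⟩
  · rintro C ⟨h0, h1, h2⟩ A hA hdn
    exact ⟨fun h => h0 (Finset.mem_sdiff.mp h).1, fun p hp => h1 p (Finset.mem_sdiff.mp hp).1,
      KG_step ht hi h0 h1 h2 A hA hdn⟩
  · rintro C hmC hm hne hmA ⟨-, -, κ, hκ, hK⟩
    obtain ⟨x, hx⟩ := hne
    by_cases hcor : ∃ c e, Disjoint (AL r (v c) (insert m C))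
        (AL (fun a b => r b a) (v (!e)) (insert m C))
    · exact Or.inl hcor
    right
    by_cases hS : Splits r C
    · exact Or.inl (Or.inl hS)
    by_cases hall : ∀ y ∈ C, κ y = κ x
    · have h1 := hK x hx
      rw [Finset.filter_true_of_mem hall] at h1
      rcases h1 with (⟨e, h⟩ | h | ⟨k, h⟩) | h
      · exact Or.inl (Or.inr (Or.inl ⟨e, h, x, hx⟩))
      · rcases h with h | h
        · rw [h] at hx
          exact absurd hx (Finset.notMem_empty x)
        · rcases step_sp ht hi hv hinj hmC hm ⟨x, hx⟩ hmA h with h | h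
          · exact absurd h hcor
          · exact Or.inl h
      · rcases step_cover ht k hmA h with h | h
        · exact absurd h hcor
        · exact Or.inl h
      · right
        push Not at hcor
        exact ⟨h, hS, hcor⟩
    · exfalso
      apply hS
      push Not at hall
      obtain ⟨y, hy, hyx⟩ := hall
      refine ⟨C.filter (fun z => κ z = κ x), C.filter (fun z => ¬ κ z = κ x),
        (Finset.filter_union_filter_not_eq _ _).symm, Finset.disjoint_filter_filter_not _ _ _, ?_,
        ⟨x, Finset.mem_filter.mpr ⟨hx, rfl⟩⟩, ⟨y, Finset.mem_filter.mpr ⟨hy, hyx⟩⟩⟩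
      intro a ha b hb
      rw [Finset.mem_filter] at ha hb
      exact ⟨fun hab => hb.2 ((hκ a ha.1 b hb.1 hab).symm.trans ha.2),
        fun hba => hb.2 ((hκ b hb.1 a ha.1 hba).trans ha.2)⟩

end

section
variable {P : Type*} [Fintype P] [DecidableEq P] [PartialOrder P]
variable {Q : Subring R} (hQ : ∀ F : R, F ∈ Q ↔ IsQS F)
include hQ

/-- The classes with a greatest element. -/
theorem class_top3 {ω : P → ℕ} (hω : Function.Injective ω) {C : Finset P} {m : P} (hmC : m ∉ C)
    (hm : ∀ p ∈ C, p < m) (hK : KG (fun a b : P => a < b) (Cut.wt ω) m C) :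
    Irreducible (GamQ hQ ω (insert m C)) := by
  refine class_abs3 (r := fun a b : P => a < b) (v := Cut.wt ω)
    (Irr := fun U => Irreducible (GamQ hQ ω U)) (fun x y z h1 h2 => lt_trans h1 h2)
    (fun x => lt_irrefl x) (wt_hv hQ ω) (wt_inj hω true) (irr_point hQ m) ?_ ?_ hmC hm hK
  · intro U c e hd hU
    exact rule_low hQ hω U c e hd hU
  · intro C hmC hm hne hmA hirr hcase
    rcases hcase with (h | h | ⟨k, hone, hmk⟩) | ⟨hflat, hS, hcor⟩
    · exact rule_top hQ hω hmC hm (fun c => Or.inl (hirr c)) (Or.inl h)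
    · exact rule_top hQ hω hmC hm (fun c => Or.inl (hirr c)) (Or.inr h)
    · refine rule_cover_lo hQ hω (conn_insert hQ (Or.inl hm)) ⟨m, Finset.mem_insert_self m C⟩ k
        (fun c => Or.inl (hirr c)) hone ?_
      intro a ha
      refine ⟨m, Finset.mem_insert_self m C, hmk, ?_⟩
      rcases Finset.mem_insert.mp (AL_subset ha) with h | h
      · exact absurd (h ▸ ha) hmk
      · exact hm a h
    · refine (rule_dvd hQ hω (conn_insert hQ (Or.inl hm)) m (Finset.mem_insert_self m C)
        (fun c => Or.inl (hirr c))).resolve_right ?_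
      exact h3_top hQ hω hmC hm hflat hne hS hmA hcor m

/-- The classes with a least element. -/
theorem class_bot3 {ω : P → ℕ} (hω : Function.Injective ω) {C : Finset P} {m : P} (hmC : m ∉ C)
    (hm : ∀ p ∈ C, m < p) (hK : KG (fun a b : P => b < a) (fun c => Cut.wt ω (!c)) m C) :
    Irreducible (GamQ hQ ω (insert m C)) := by
  have hnn : ∀ c, Cut.wt ω (!(!c)) = Cut.wt ω c := fun c => by rw [Bool.not_not]
  have hv' : ∀ (c : Bool) (p : P), (fun c => Cut.wt ω (!c)) (!c) p =
      - (fun c => Cut.wt ω (!c)) c p := fun c p => wt_hv hQ ω (!c) p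
  have hinj : Function.Injective ((fun c => Cut.wt ω (!c)) true) := wt_inj hω false
  have ht : ∀ x y z : P, y < x → z < y → z < x := fun x y z h1 h2 => lt_trans h2 h1
  have hi' : ∀ x : P, ¬ x < x := fun x => lt_irrefl x
  refine class_abs3 (r := fun a b : P => b < a) (v := fun c => Cut.wt ω (!c))
    (Irr := fun U => Irreducible (GamQ hQ ω U)) ht hi' hv' hinj (irr_point hQ m) ?_ ?_ hmC hm hK
  · intro U c e hd hU
    have hd' : Disjoint (AL (fun a b : P => b < a) (Cut.wt ω (!c)) U)
        (AL (fun a b : P => a < b) (Cut.wt ω (!(!e))) U) := hd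
    rw [hnn] at hd'
    exact rule_high hQ hω U e c hd'.symm hU
  · intro C hmC hm hne hmA hirr hcase
    have hirr' : ∀ c, Irreducible (GamQ hQ ω ((insert m C) \
        AL (fun a b : P => a < b) (Cut.wt ω c) (insert m C))) ∨
      Irreducible (GamQ hQ ω ((insert m C) \
        AL (fun a b : P => b < a) (Cut.wt ω (!c)) (insert m C))) := fun c => Or.inr (hirr c)
    rcases hcase with (h | ⟨e, h⟩ | ⟨k, hone, hmk⟩) | ⟨hflat, hS, hcor⟩
    · exact rule_bot hQ hω hmC hm hirr' (Or.inl h)
    · refine rule_bot hQ hω hmC hm hirr' (Or.inr ⟨e, ?_⟩)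
      have h' : FC (fun a b : P => b < a) C
        ((AL (fun a b : P => a < b) (Cut.wt ω (!(!e))) (insert m C)).erase m) := h
      rw [hnn] at h'
      exact h'
    · refine rule_cover_hi hQ hω (conn_insert hQ (Or.inr hm)) ⟨m, Finset.mem_insert_self m C⟩ k
        hirr' hone ?_
      intro a ha
      refine ⟨m, Finset.mem_insert_self m C, hmk, ?_⟩
      rcases Finset.mem_insert.mp (AL_subset ha) with h | h
      · exact absurd (h ▸ ha) hmk
      · exact hm a h
    · refine (rule_dvd hQ hω (conn_insert hQ (Or.inr hm)) m (Finset.mem_insert_self m C)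
        hirr').resolve_right ?_
      exact h3_bot hQ hω hmC hm (fun x hx y hy z hz h1 h2 => hflat z hz y hy x hx h2 h1) hne hS
        hmA hcor m

end

end Pool.Agent.Lib.MP_5bc52d_co.Key
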